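import Pool.Agent.TameB.Cells

/-!
# TAMEB: the cells in the complex plane
-/

set_option autoImplicit false

namespace Pool.Agent.TameB

open Set Topology Filter Pool.Agent.TriPerc

/-- The plane and the product. -/
private noncomputable def eC : ℂ ≃ₜ Pt := Complex.equivRealProdCLM.toHomeomorph

private theorem eC_apply (z : ℂ) : eC z = (z.re, z.im) := rfl

private theorem dist_le_eC (z w : ℂ) : dist z w ≤ 2 * dist (eC z) (eC w) := by
  rw [dist_eq_norm]
  refine (Complex.norm_le_abs_re_add_abs_im _).trans ?_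
  rw [eC_apply, eC_apply, Prod.dist_eq, Complex.sub_re, Complex.sub_im, Real.dist_eq, Real.dist_eq]
  have h1 := le_max_left |z.re - w.re| |z.im - w.im|
  have h2 := le_max_right |z.re - w.re| |z.im - w.im|
  simp only
  linarith

/-- The cells in `ℂ`, in the form used by `Pool.Agent.Tame.Squeeze`.  PROOF: transport by
`Complex.equivRealProdCLM.toHomeomorph`; `dist z w ≤ 2 * dist (e z) (e w)`
(`Complex.norm_le_abs_re_add_abs_im`); enumerate `F` by `F.equivFin`. -/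
theorem exists_cells_complex {C : Set ℂ} (hC : IsCompact C) (hd : IsTotallyDisconnected C) {ε : ℝ}
    (hε : 0 < ε) :
    ∃ (n : ℕ) (D : Fin n → Set ℂ), (∀ i, IsOpen (D i)) ∧
      (∀ i, ∃ R : Set ℂ, IsOpen R ∧ R.Nonempty ∧ R ⊆ D i ∧ ∀ U ⊆ R, IsOpen U → U.Nonempty →
        ∃ h : ℂ ≃ₜ ℂ, (∀ z ∉ D i, h z = z) ∧ h '' (C ∩ D i) ⊆ U) ∧
      Pairwise (fun i j => Disjoint (D i) (D j)) ∧
      (∀ i, ∀ x ∈ D i, ∀ y ∈ D i, dist x y ≤ ε) ∧ C ⊆ ⋃ i, D i := by
  have hC' : IsCompact (eC '' C) := hC.image eC.continuous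
  have hd' : IsTotallyDisconnected (eC '' C) := by
    intro S hS hc
    have h1 : (eC.symm '' S).Subsingleton := by
      refine hd _ ?_ (hc.image _ eC.symm.continuous.continuousOn)
      rintro _ ⟨y, hy, rfl⟩
      obtain ⟨z, hz, rfl⟩ := hS hy
      simpa using hz
    intro x hx y hy
    exact eC.symm.injective (h1 ⟨x, hx, rfl⟩ ⟨y, hy, rfl⟩)
  obtain ⟨F, hF1, hF2, hF3⟩ := exists_cells hC' hd' (half_pos hε)
  refine ⟨F.card, fun i => eC ⁻¹' (F.equivFin.symm i).1, ?_, ?_, ?_, ?_, ?_⟩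
  · intro i
    exact (hF1 _ (F.equivFin.symm i).2).1.preimage eC.continuous
  · intro i
    obtain ⟨-, ⟨U₀, hU₀, hne, hsub, hcell⟩, -⟩ := hF1 _ (F.equivFin.symm i).2
    refine ⟨eC ⁻¹' U₀, hU₀.preimage eC.continuous, ?_, preimage_mono hsub, ?_⟩
    · obtain ⟨p, hp⟩ := hne
      exact ⟨eC.symm p, by simpa using hp⟩
    · intro U hU hUo hUne
      obtain ⟨z, hz⟩ := hUne
      have h1 : IsOpen (eC.symm ⁻¹' U) := hUo.preimage eC.symm.continuous
      have h2 : eC z ∈ eC.symm ⁻¹' U := by simpa using hz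
      obtain ⟨σ, hσ, hσ'⟩ := Metric.nhds_basis_closedBall.mem_iff.1 (h1.mem_nhds h2)
      obtain ⟨f, hf1, hf2⟩ := hcell (eC z) (hU hz) σ hσ
      refine ⟨(eC.trans f).trans eC.symm, ?_, ?_⟩
      · intro w hw
        show eC.symm (f (eC w)) = w
        rw [hf1 _ hw, Homeomorph.symm_apply_apply]
      · rintro _ ⟨w, ⟨hw1, hw2⟩, rfl⟩
        exact hσ' (hf2 _ ⟨⟨w, hw1, rfl⟩, hw2⟩)
  · intro i j hij
    refine (hF2 _ (F.equivFin.symm i).2 _ (F.equivFin.symm j).2 ?_).preimage eC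
    exact fun h => hij (F.equivFin.symm.injective (Subtype.ext h))
  · intro i x hx y hy
    have h1 := (hF1 _ (F.equivFin.symm i).2).2.2 _ hx _ hy
    have h2 := dist_le_eC x y
    linarith
  · intro z hz
    obtain ⟨D, hD, hzD⟩ := hF3 (eC z) ⟨z, hz, rfl⟩
    refine mem_iUnion.2 ⟨F.equivFin ⟨D, hD⟩, ?_⟩
    show eC z ∈ (F.equivFin.symm (F.equivFin ⟨D, hD⟩)).1
    rw [Equiv.symm_apply_apply]
    exact hzD

end Pool.Agent.TameB
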