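import Pool.Agent.TameB.Fill

/-!
# TAMEB: filled components: trichotomy and selection
-/

set_option autoImplicit false

namespace Pool.Agent.TameB

open Set Topology Filter Pool.Agent.TriPerc

/-- A connected set apart from `K` is in the exterior of `K` or in the filling. -/
private theorem ext_or_fill {K K' : Set V} (hc' : IsConn K') (hn' : K'.Nonempty)
    (h : ∀ v ∈ K', v ∉ K) : K' ⊆ Ext K ∨ K' ⊆ fill K := by
  obtain ⟨u, hu⟩ := hn'
  by_cases hE : u ∈ Ext K
  · left
    intro v hv
    exact ext_of_conn hE ((hc' u hu v hv).mono h)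
  · right
    intro v hv hvE
    exact hE (ext_of_conn hvE ((hc' v hv u hu).mono h))

/-- If `K'` is in the filling of `K` then so is its filling. -/
private theorem fill_sub_of_sub {K K' : Set V} (hK : K.Finite) (h : K' ⊆ fill K) :
    fill K' ⊆ fill K := by
  unfold fill
  rw [compl_subset_compl]
  intro v hv N
  obtain ⟨w, hw, hvw⟩ := hv N
  refine ⟨w, hw, ?_⟩
  refine (isConn_ext hK v hv w (ext_of_conn hv hvw)).mono ?_
  intro x hx hx'
  exact h hx' hx

/-- If `K'` is in the exterior of `K` and `K` is in the exterior of `K'` then the filling of `K`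
is in the exterior of `K'`. -/
private theorem fill_sub_ext {K K' : Set V} (hK : K.Finite) (hc : IsConn K) (hn : K.Nonempty)
    (h : K' ⊆ Ext K) (h' : K ⊆ Ext K') : fill K ⊆ Ext K' := by
  obtain ⟨k, hk⟩ := hn
  intro x hx
  refine ext_of_conn (h' hk) ?_
  refine (isConn_fill hK hc k (subset_fill K hk) x hx).mono ?_
  intro y hy hy'
  exact hy (h hy')

/-- A vertex of the filling of `K` with a neighbour in the exterior of `K` is in `K`. -/
private theorem mem_of_adj {K : Set V} {x y : V} (hx : x ∈ fill K) (hy : y ∈ Ext K)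
    (h : Adj x y) : x ∈ K := by
  by_contra hxK
  have hyK : y ∉ K := by
    obtain ⟨w, -, hw⟩ := hy 0
    exact hw.left
  exact hx (ext_of_conn hy (Conn.of_adj hyK hxK h.symm))

/-- Trichotomy.  PROOF: `K'` is connected off `K`, so `K' ⊆ Ext K` or `K' ⊆ fill K`.
If `K' ⊆ fill K` then `Ext K` is connected (`isConn_ext`), disjoint from `K'` and unbounded to the
right, so `Ext K ⊆ Ext K'`, that is `fill K' ⊆ fill K`.  The same with `K` and `K'` exchanged.
Remains: `K' ⊆ Ext K` and `K ⊆ Ext K'`.  Then `fill K` is disjoint from `K'`, connected and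
meets `Ext K'`, so `fill K ⊆ Ext K'`, so `fill K` and `fill K'` are disjoint.  If `x ∈ fill K`,
`y ∈ fill K'` were adjacent then `y ∈ Ext K`; if `x ∉ K` then `x ∈ Ext K`, a contradiction; so
`x ∈ K` and likewise `y ∈ K'`, which contradicts `Apart K K'`. -/
theorem fill_trichotomy {K K' : Set V} (hK : K.Finite) (hc : IsConn K) (hn : K.Nonempty)
    (hK' : K'.Finite) (hc' : IsConn K') (hn' : K'.Nonempty) (h : Apart K K') :
    fill K ⊆ fill K' ∨ fill K' ⊆ fill K ∨ Apart (fill K) (fill K') := by
  rcases ext_or_fill (K := K) hc' hn' (fun v hv hvK => (h v hvK v hv).1 rfl) with h1 | h1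
  · rcases ext_or_fill (K := K') hc hn (fun v hv hvK => (h v hv v hvK).1 rfl) with h2 | h2
    · right
      right
      have e1 := fill_sub_ext hK hc hn h1 h2
      have e2 := fill_sub_ext hK' hc' hn' h2 h1
      intro x hx y hy
      refine ⟨?_, fun hxy => ?_⟩
      · rintro rfl
        exact hy (e1 hx)
      · have hxK : x ∈ K := mem_of_adj hx (e2 hy) hxy
        have hyK : y ∈ K' := mem_of_adj hy (e1 hx) hxy.symm
        exact (h x hxK y hyK).2 hxy
    · left
      exact fill_sub_of_sub hK' h2
  · right
    left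
    exact fill_sub_of_sub hK h1

private theorem comp_eq_of_mem {A : Set V} {u v : V} (h : v ∈ comp A u) :
    comp A u = comp A v := by
  have h0 : Conn A u v := h
  ext z
  constructor
  · intro hz
    have h1 : Conn A u z := hz
    exact h0.symm.trans h1
  · intro hz
    have h1 : Conn A v z := hz
    exact h0.trans h1

private theorem apart_comp {A : Set V} {u v : V} (h : comp A u ≠ comp A v) :
    Apart (comp A u) (comp A v) := by
  intro x hx y hy
  refine ⟨?_, fun hxy => ?_⟩
  · rintro rfl
    exact h ((comp_eq_of_mem hx).trans (comp_eq_of_mem hy).symm)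
  · have hy' : y ∈ comp A u := comp_adj hx (comp_subset hy) hxy
    exact h ((comp_eq_of_mem hy').trans (comp_eq_of_mem hy).symm)

/-- Selection.  PROOF: the family of all `fill (comp A u)`, `u ∈ A`, is finite; take its maximal
elements (`Set.Finite.exists_le_maximal`).  Two different components of `A` are `Apart`
(`comp_adj`). -/
theorem exists_animals {A : Set V} (hA : A.Finite) :
    ∃ F : Finset (Set V), (∀ B ∈ F, IsAnimal B ∧ ∃ u ∈ A, B = fill (comp A u)) ∧
      (∀ B ∈ F, ∀ B' ∈ F, B ≠ B' → Apart B B') ∧ ∀ u ∈ A, ∃ B ∈ F, u ∈ B := by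
  classical
  have hS : ((fun u => fill (comp A u)) '' A).Finite := hA.image _
  have hM : {B | Maximal (· ∈ (fun u => fill (comp A u)) '' A) B}.Finite :=
    hS.subset fun B hB => hB.prop
  have hfin : ∀ u, (comp A u).Finite := fun u => hA.subset comp_subset
  have hself : ∀ u ∈ A, u ∈ comp A u := fun u hu => Conn.refl hu
  refine ⟨hM.toFinset, ?_, ?_, ?_⟩
  · intro B hB
    rw [Set.Finite.mem_toFinset] at hB
    obtain ⟨u, hu, rfl⟩ := hB.prop
    exact ⟨isAnimal_fill (hfin u) isConn_comp ⟨u, hself u hu⟩, u, hu, rfl⟩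
  · intro B hB B' hB' hne
    rw [Set.Finite.mem_toFinset] at hB hB'
    obtain ⟨u, hu, huB⟩ := hB.prop
    obtain ⟨v, hv, hvB⟩ := hB'.prop
    have hcomp : comp A u ≠ comp A v := by
      intro hE
      apply hne
      rw [← huB, ← hvB]
      exact congrArg fill hE
    have hap := apart_comp hcomp
    rcases fill_trichotomy (hfin u) isConn_comp ⟨u, hself u hu⟩ (hfin v) isConn_comp
      ⟨v, hself v hv⟩ hap with h1 | h1 | h1
    · exfalso
      have h2 : B ≤ B' := by
        rw [← huB, ← hvB]
        exact h1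
      exact hne (hB.eq_of_le hB'.prop h2)
    · exfalso
      have h2 : B' ≤ B := by
        rw [← huB, ← hvB]
        exact h1
      exact hne (hB'.eq_of_le hB.prop h2).symm
    · rw [← huB, ← hvB]
      exact h1
  · intro u hu
    obtain ⟨B, hle, hB⟩ := hS.exists_le_maximal (a := fill (comp A u)) ⟨u, hu, rfl⟩
    refine ⟨B, ?_, hle (subset_fill _ (hself u hu))⟩
    rw [Set.Finite.mem_toFinset]
    exact hB

end Pool.Agent.TameB
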