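import Pool.Agent.TameB.Defs

/-!
# TAMEB: one-dimensional bumps
-/

set_option autoImplicit false

namespace Pool.Agent.TameB

open Set Topology Filter

/-- `P` is an increasing homeomorphism of the line supported in `(a, c)`. -/
structure IsBump (a c : ℝ) (P : ℝ → ℝ) : Prop where
  cont : Continuous P
  mono : StrictMono P
  low : ∀ y, y ≤ a → P y = y
  high : ∀ y, c ≤ y → P y = y

/-- The tent function. -/
private noncomputable def bumpTent (a b c y : ℝ) : ℝ :=
  max 0 (min ((y - a) / (b - a)) ((c - y) / (c - b)))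

private theorem bumpTent_up {a b c y z : ℝ} (h1 : a < b) (h2 : b < c) (hyz : y ≤ z) :
    bumpTent a b c z ≤ bumpTent a b c y + (z - y) / (b - a) := by
  have hb : 0 < b - a := sub_pos.2 h1
  have hc : 0 < c - b := sub_pos.2 h2
  have hd : 0 ≤ (z - y) / (b - a) := div_nonneg (by linarith) hb.le
  have hu : (z - a) / (b - a) = (y - a) / (b - a) + (z - y) / (b - a) := by
    rw [← add_div]; congr 1; ring
  have hv : (c - z) / (c - b) ≤ (c - y) / (c - b) := by gcongr
  have h0 : 0 ≤ bumpTent a b c y := le_max_left _ _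
  have hm : min ((y - a) / (b - a)) ((c - y) / (c - b)) ≤ bumpTent a b c y := le_max_right _ _
  refine max_le (by linarith) ?_
  rcases le_total ((y - a) / (b - a)) ((c - y) / (c - b)) with h | h
  · rw [min_eq_left h] at hm
    exact (min_le_left _ _).trans (by linarith)
  · rw [min_eq_right h] at hm
    exact (min_le_right _ _).trans (by linarith)

private theorem bumpTent_down {a b c y z : ℝ} (h1 : a < b) (h2 : b < c) (hyz : y ≤ z) :
    bumpTent a b c y ≤ bumpTent a b c z + (z - y) / (c - b) := by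
  have hb : 0 < b - a := sub_pos.2 h1
  have hc : 0 < c - b := sub_pos.2 h2
  have hd : 0 ≤ (z - y) / (c - b) := div_nonneg (by linarith) hc.le
  have hu : (c - y) / (c - b) = (c - z) / (c - b) + (z - y) / (c - b) := by
    rw [← add_div]; congr 1; ring
  have hv : (y - a) / (b - a) ≤ (z - a) / (b - a) := by gcongr
  have h0 : 0 ≤ bumpTent a b c z := le_max_left _ _
  have hm : min ((z - a) / (b - a)) ((c - z) / (c - b)) ≤ bumpTent a b c z := le_max_right _ _
  refine max_le (by linarith) ?_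
  rcases le_total ((z - a) / (b - a)) ((c - z) / (c - b)) with h | h
  · rw [min_eq_left h] at hm
    exact (min_le_left _ _).trans (by linarith)
  · rw [min_eq_right h] at hm
    exact (min_le_right _ _).trans (by linarith)

private theorem bumpTent_low {a b c y : ℝ} (h1 : a < b) (hy : y ≤ a) :
    bumpTent a b c y = 0 := by
  have hb : 0 < b - a := sub_pos.2 h1
  refine max_eq_left ((min_le_left _ _).trans ?_)
  exact div_nonpos_of_nonpos_of_nonneg (by linarith) hb.le

private theorem bumpTent_high {a b c y : ℝ} (h2 : b < c) (hy : c ≤ y) :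
    bumpTent a b c y = 0 := by
  have hc : 0 < c - b := sub_pos.2 h2
  refine max_eq_left ((min_le_right _ _).trans ?_)
  exact div_nonpos_of_nonpos_of_nonneg (by linarith) hc.le

private theorem bumpTent_top {a b c : ℝ} (h1 : a < b) (h2 : b < c) :
    bumpTent a b c b = 1 := by
  have hb : b - a ≠ 0 := (sub_pos.2 h1).ne'
  have hc : c - b ≠ 0 := (sub_pos.2 h2).ne'
  simp [bumpTent, div_self hb, div_self hc]

private theorem bumpTent_cont (a b c : ℝ) : Continuous (bumpTent a b c) := by
  unfold bumpTent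
  fun_prop

/-- 3-node bump.  PROOF: `P y = y + (b' - b) * max 0 (min ((y - a) / (b - a)) ((c - y) / (c - b)))`;
on `y ≤ a`: `P y = y`, on `[a, b]`: `P y = a + (y - a) (b' - a) / (b - a)`, on `[b, c]`:
`P y = c - (c - y) (c - b') / (c - b)`, on `y ≥ c`: `P y = y`.  Alternatively
`P y = max` / `min` of affine functions. -/
theorem exists_bump {a b b' c : ℝ} (h1 : a < b) (h2 : b < c) (h3 : a < b') (h4 : b' < c) :
    ∃ P : ℝ → ℝ, IsBump a c P ∧ P b = b' := by
  have hb : 0 < b - a := sub_pos.2 h1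
  have hc : 0 < c - b := sub_pos.2 h2
  refine ⟨fun y => y + (b' - b) * bumpTent a b c y, ⟨?_, ?_, ?_, ?_⟩, ?_⟩
  · exact continuous_id.add (continuous_const.mul (bumpTent_cont a b c))
  · intro y z hyz
    have hup := bumpTent_up h1 h2 hyz.le
    have hdn := bumpTent_down h1 h2 hyz.le
    have hpos : 0 < z - y := sub_pos.2 hyz
    show y + (b' - b) * bumpTent a b c y < z + (b' - b) * bumpTent a b c z
    rcases le_total b b' with h | h
    · have e1 : (b' - b) * (bumpTent a b c y - bumpTent a b c z) ≤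
          (b' - b) * ((z - y) / (c - b)) :=
        mul_le_mul_of_nonneg_left (by linarith) (by linarith)
      have e2 : (b' - b) * ((z - y) / (c - b)) < z - y := by
        have e3 : (b' - b) / (c - b) < 1 := (div_lt_one hc).2 (by linarith)
        calc (b' - b) * ((z - y) / (c - b)) = (b' - b) / (c - b) * (z - y) := by ring
          _ < 1 * (z - y) := by gcongr
          _ = z - y := one_mul _
      nlinarith
    · have e1 : (b - b') * (bumpTent a b c z - bumpTent a b c y) ≤
          (b - b') * ((z - y) / (b - a)) :=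
        mul_le_mul_of_nonneg_left (by linarith) (by linarith)
      have e2 : (b - b') * ((z - y) / (b - a)) < z - y := by
        have e3 : (b - b') / (b - a) < 1 := (div_lt_one hb).2 (by linarith)
        calc (b - b') * ((z - y) / (b - a)) = (b - b') / (b - a) * (z - y) := by ring
          _ < 1 * (z - y) := by gcongr
          _ = z - y := one_mul _
      nlinarith
  · intro y hy
    simp [bumpTent_low (c := c) h1 hy]
  · intro y hy
    simp [bumpTent_high (a := a) h2 hy]
  · simp [bumpTent_top h1 h2]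

theorem IsBump.id (a c : ℝ) : IsBump a c id :=
  ⟨continuous_id, strictMono_id, fun _ _ => rfl, fun _ _ => rfl⟩

theorem IsBump.comp {a c a' c' : ℝ} {P P' : ℝ → ℝ} (h : IsBump a c P) (h' : IsBump a' c' P') :
    IsBump (min a a') (max c c') (P ∘ P') := by
  refine ⟨h.cont.comp h'.cont, h.mono.comp h'.mono, fun y hy => ?_, fun y hy => ?_⟩
  · rw [Function.comp_apply, h'.low y (hy.trans (min_le_right _ _)),
      h.low y (hy.trans (min_le_left _ _))]
  · rw [Function.comp_apply, h'.high y ((le_max_right _ _).trans hy),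
      h.high y ((le_max_left _ _).trans hy)]

theorem IsBump.surjective {a c : ℝ} {P : ℝ → ℝ} (h : IsBump a c P) : Function.Surjective P := by
  refine h.cont.surjective ?_ ?_
  · refine Filter.tendsto_id.congr' ?_
    filter_upwards [Filter.eventually_ge_atTop c] with y hy
    exact (h.high y hy).symm
  · refine Filter.tendsto_id.congr' ?_
    filter_upwards [Filter.eventually_le_atBot a] with y hy
    exact (h.low y hy).symm

/-- A bump maps `[a, c]` to itself. -/
theorem IsBump.mapsTo {a c : ℝ} {P : ℝ → ℝ} (h : IsBump a c P) (hac : a ≤ c) :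
    MapsTo P (Icc a c) (Icc a c) := by
  intro y hy
  have e1 := h.mono.monotone hy.1
  have e2 := h.mono.monotone hy.2
  rw [h.low a le_rfl] at e1
  rw [h.high c le_rfl] at e2
  exact ⟨e1, e2⟩

/-- 4-node squeeze.  PROOF: `P = P₁ ∘ P₂`, where `P₂` is the identity if `c' = c`, else the bump
with nodes `b' , c ↦ c', d`, and `P₁` is the identity if `b = b'`, else the bump with nodes
`a, b ↦ b', c'`. -/
theorem exists_squeeze {a b b' c' c d : ℝ} (h1 : a < b) (h2 : b ≤ b') (h3 : b' < c') (h4 : c' ≤ c)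
    (h5 : c < d) :
    ∃ P : ℝ → ℝ, IsBump a d P ∧ P b = b' ∧ P c = c' ∧ (b = b' → ∀ y, y ≤ b → P y = y) ∧
      (c = c' → ∀ y, c ≤ y → P y = y) := by
  -- the outer bump moves `b` to `b'` and is supported in `(a, c')`
  have hbc : b < c' := lt_of_le_of_lt h2 h3
  obtain ⟨P₁, hP₁, hP₁b⟩ := exists_bump h1 hbc (lt_of_lt_of_le h1 h2) h3
  -- the inner bump moves `c` to `c'` and is supported in `(b', d)`
  obtain ⟨P₂, hP₂, hP₂c⟩ := exists_bump (lt_of_lt_of_le h3 h4) h5 h3 (lt_of_le_of_lt h4 h5)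
  have hQ₁ : ∃ Q : ℝ → ℝ, IsBump a c' Q ∧ Q b = b' ∧ (b = b' → ∀ y, Q y = y) := by
    by_cases hb : b = b'
    · exact ⟨id, IsBump.id _ _, hb, fun _ _ => rfl⟩
    · exact ⟨P₁, hP₁, hP₁b, fun h => absurd h hb⟩
  have hQ₂ : ∃ Q : ℝ → ℝ, IsBump b' d Q ∧ Q c = c' ∧ (c = c' → ∀ y, Q y = y) := by
    by_cases hc : c = c'
    · exact ⟨id, IsBump.id _ _, hc, fun _ _ => rfl⟩
    · exact ⟨P₂, hP₂, hP₂c, fun h => absurd h hc⟩
  obtain ⟨Q₁, b1, b2, b3⟩ := hQ₁
  obtain ⟨Q₂, d1, d2, d3⟩ := hQ₂
  have hcomp := b1.comp d1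
  rw [min_eq_left (lt_of_lt_of_le h1 h2).le, max_eq_right (lt_of_le_of_lt h4 h5).le] at hcomp
  refine ⟨Q₁ ∘ Q₂, hcomp, ?_, ?_, fun e y hy => ?_, fun e y hy => ?_⟩
  · rw [Function.comp_apply, d1.low b h2, b2]
  · rw [Function.comp_apply, d2, b1.high c' le_rfl]
  · rw [Function.comp_apply, b3 e, d1.low y (hy.trans h2)]
  · rw [Function.comp_apply, d3 e, b1.high y (h4.trans hy)]

/-- Cut-off: `1` on `[x₁, x₂]`, `0` off `(x₁ - η, x₂ + η)`. -/
theorem exists_cut {x₁ x₂ η : ℝ} (h : x₁ ≤ x₂) (hη : 0 < η) :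
    ∃ τ : ℝ → ℝ, Continuous τ ∧ (∀ x, 0 ≤ τ x) ∧ (∀ x, τ x ≤ 1) ∧
      (∀ x, x₁ ≤ x → x ≤ x₂ → τ x = 1) ∧ ∀ x, x ≤ x₁ - η ∨ x₂ + η ≤ x → τ x = 0 := by
  refine ⟨fun x => max 0 (min 1 (min ((x - (x₁ - η)) / η) ((x₂ + η - x) / η))), ?_, ?_, ?_,
    ?_, ?_⟩
  · fun_prop
  · intro x
    exact le_max_left _ _
  · intro x
    exact max_le zero_le_one (min_le_left _ _)
  · intro x hx1 hx2
    have e1 : 1 ≤ (x - (x₁ - η)) / η := (one_le_div hη).2 (by linarith)
    have e2 : 1 ≤ (x₂ + η - x) / η := (one_le_div hη).2 (by linarith)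
    have e3 : min 1 (min ((x - (x₁ - η)) / η) ((x₂ + η - x) / η)) = 1 :=
      min_eq_left (le_min e1 e2)
    show max 0 (min 1 (min ((x - (x₁ - η)) / η) ((x₂ + η - x) / η))) = 1
    rw [e3]
    exact max_eq_right zero_le_one
  · rintro x (hx | hx)
    · refine max_eq_left ((min_le_right _ _).trans ((min_le_left _ _).trans ?_))
      exact div_nonpos_of_nonpos_of_nonneg (by linarith) hη.le
    · refine max_eq_left ((min_le_right _ _).trans ((min_le_right _ _).trans ?_))
      exact div_nonpos_of_nonpos_of_nonneg (by linarith) hη.le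

end Pool.Agent.TameB
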