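import Pool.Agent.TameB.Grid

/-!
# TAMEB: the brick wall, second part
-/

set_option autoImplicit false

namespace Pool.Agent.TameB

open Set Topology Filter Pool.Agent.TriPerc

variable {δ : ℝ}

/-- Only finitely many bricks meet a bounded set. -/
theorem finite_bricks (hδ : 0 < δ) {A : Set Pt} (hA : Bornology.IsBounded A) :
    {v : V | (brick δ v ∩ A).Nonempty}.Finite := by
  obtain ⟨R, hR⟩ := hA.exists_norm_le
  set M : ℝ := max R 0 / δ + 1 with hM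
  obtain ⟨N, hN⟩ := exists_nat_ge (2 * M)
  refine (Set.finite_Icc ((-(N : ℤ), -(N : ℤ)) : ℤ × ℤ) (N, N)).subset ?_
  rintro v ⟨z, hz, hzA⟩
  rw [mem_brick] at hz
  obtain ⟨⟨h1, h2⟩, h3, h4⟩ := hz
  have hn := hR z hzA
  have hz1 : |z.1| ≤ max R 0 := (norm_fst_le z).trans (hn.trans (le_max_left _ _))
  have hz2 : |z.2| ≤ max R 0 := (norm_snd_le z).trans (hn.trans (le_max_left _ _))
  have hMδ : max R 0 = δ * (M - 1) := by
    rw [hM]
    field_simp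
    ring
  rw [hMδ, abs_le] at hz1 hz2
  have a1 : (v.1 : ℝ) ≤ M - 1 := le_of_mul_le_mul_left (h1.trans hz1.2) hδ
  have a2 : -(M - 1) ≤ (v.1 : ℝ) + 1 := by
    refine le_of_mul_le_mul_left (a := δ) ?_ hδ
    linarith [hz1.1]
  have a3 : (v.2 : ℝ) + v.1 / 2 ≤ M - 1 := le_of_mul_le_mul_left (h3.trans hz2.2) hδ
  have a4 : -(M - 1) ≤ (v.2 : ℝ) + v.1 / 2 + 1 := by
    refine le_of_mul_le_mul_left (a := δ) ?_ hδ
    linarith [hz2.1]
  have b1 : -(N : ℝ) ≤ v.1 := by linarith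
  have b2 : (v.1 : ℝ) ≤ N := by linarith
  have b3 : -(N : ℝ) ≤ v.2 := by linarith
  have b4 : (v.2 : ℝ) ≤ N := by linarith
  refine ⟨⟨?_, ?_⟩, ?_, ?_⟩
  · show -(N : ℤ) ≤ v.1
    exact_mod_cast b1
  · show -(N : ℤ) ≤ v.2
    exact_mod_cast b3
  · show v.1 ≤ (N : ℤ)
    exact_mod_cast b2
  · show v.2 ≤ (N : ℤ)
    exact_mod_cast b4

/-- A vertical segment of bricks is a rectangle. -/
theorem mem_reg_seg (hδ : 0 < δ) {a c d : ℤ} (h : c ≤ d) {z : Pt} : z ∈ Reg δ (seg a c d) ↔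
    (δ * a ≤ z.1 ∧ z.1 ≤ δ * (a + 1)) ∧
      δ * (c + a / 2) ≤ z.2 ∧ z.2 ≤ δ * (d + a / 2 + 1) := by
  constructor
  · rintro ⟨v, ⟨hv1, hv2, hv3⟩, hz⟩
    rw [mem_brick] at hz
    obtain ⟨h1, h3, h4⟩ := hz
    have e1 : (v.1 : ℝ) = a := by exact_mod_cast hv1
    rw [e1] at h1 h3 h4
    have e2 : (c : ℝ) ≤ v.2 := by exact_mod_cast hv2
    have e3 : (v.2 : ℝ) ≤ d := by exact_mod_cast hv3
    refine ⟨h1, le_trans ?_ h3, h4.trans ?_⟩
    · exact mul_le_mul_of_nonneg_left (by linarith) hδ.le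
    · exact mul_le_mul_of_nonneg_left (by linarith) hδ.le
  · rintro ⟨h1, h3, h4⟩
    set t : ℝ := z.2 / δ - a / 2 with ht
    have hz2 : z.2 = δ * (t + a / 2) := by
      rw [ht]
      field_simp
      ring
    have t1 : (c : ℝ) ≤ t := by
      rw [hz2] at h3
      have := le_of_mul_le_mul_left h3 hδ
      linarith
    have t2 : t ≤ d + 1 := by
      rw [hz2] at h4
      have := le_of_mul_le_mul_left h4 hδ
      linarith
    obtain ⟨b, hb1, hb2, hb3, hb4⟩ : ∃ b : ℤ, c ≤ b ∧ b ≤ d ∧ (b : ℝ) ≤ t ∧ t ≤ b + 1 := by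
      rcases t2.lt_or_eq with h5 | h5
      · refine ⟨⌊t⌋, Int.le_floor.mpr t1, ?_, Int.floor_le t, (Int.lt_floor_add_one t).le⟩
        have : ⌊t⌋ < d + 1 := Int.floor_lt.mpr (by push_cast; exact h5)
        omega
      · exact ⟨d, h, le_rfl, by linarith, h5.le⟩
    refine ⟨(a, b), ⟨rfl, hb1, hb2⟩, ?_⟩
    rw [mem_brick]
    refine ⟨h1, ?_, ?_⟩
    · rw [hz2]
      exact mul_le_mul_of_nonneg_left (by simp only; linarith) hδ.le
    · rw [hz2]
      exact mul_le_mul_of_nonneg_left (by simp only; linarith) hδ.le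

/-- PROOF: `brick_dist` and the triangle inequality. -/
theorem disjoint_Nb {η : ℝ} (hδ : 0 < δ) (hη : η ≤ δ / 4) {B B' : Set V} (h : Apart B B') :
    Disjoint (Nb η (Reg δ B)) (Nb η (Reg δ B')) := by
  rw [Set.disjoint_left]
  rintro z ⟨w, ⟨u, hu, hwu⟩, hzw⟩ ⟨w', ⟨v, hv, hwv⟩, hzw'⟩
  obtain ⟨hne, hna⟩ := h u hu v hv
  have h1 := brick_dist hδ hne hna hwu hwv
  have h2 := dist_triangle w z w'
  rw [dist_comm w z] at h2
  linarith

end Pool.Agent.TameB
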