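import Pool.Agent.TameB.Chain
import Pool.Agent.TameB.GridB

/-!
# TAMEB: clusters are small
-/

set_option autoImplicit false

namespace Pool.Agent.TameB

open Set Topology Filter Pool.Agent.TriPerc

/-- Clusters of bricks which meet `C` are small.  PROOF: choose for every `v` whose brick meets `C`
a point of `C` in the brick; the points of adjacent bricks have distance `≤ 2 δ ≤ ρ`
(`brick_adj`), so all the chosen points of a component have distance `< ε / 4` from the first one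
(`exists_chain_bound` with `ε / 4`, `ρ`), and with `δ ≤ ε / 8` the points of the bricks of a
component have distance `≤ ε / 2 + 2 δ ≤ ε`. -/
theorem cluster_small {C : Set Pt} (hC : IsCompact C) (hd : IsTotallyDisconnected C) {ε : ℝ}
    (hε : 0 < ε) :
    ∃ δ : ℝ, 0 < δ ∧ δ ≤ ε ∧ ∀ u : V, (brick δ u ∩ C).Nonempty →
      ∀ z ∈ Reg δ (comp {v | (brick δ v ∩ C).Nonempty} u),
      ∀ w ∈ Reg δ (comp {v | (brick δ v ∩ C).Nonempty} u), dist z w ≤ ε := by
  obtain ⟨ρ, hρ, hch⟩ := exists_chain_bound hC hd (show (0 : ℝ) < ε / 4 by linarith)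
  set δ : ℝ := min (ρ / 2) (ε / 8) with hδdef
  have hδ : 0 < δ := lt_min (by linarith) (by linarith)
  have hδρ : 2 * δ ≤ ρ := by
    have : δ ≤ ρ / 2 := min_le_left _ _
    linarith
  have hδε : δ ≤ ε / 8 := min_le_right _ _
  refine ⟨δ, hδ, by linarith, fun u hu => ?_⟩
  set K : Set V := {v | (brick δ v ∩ C).Nonempty} with hK
  have hex : ∀ v : V, ∃ p : Pt, v ∈ K → p ∈ brick δ v ∧ p ∈ C := by
    intro v
    by_cases hv : v ∈ K
    · obtain ⟨p, hp⟩ := hv
      exact ⟨p, fun _ => hp⟩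
    · exact ⟨(0, 0), fun h => absurd h hv⟩
  choose p hp using hex
  have key : ∀ v ∈ comp K u, v ∈ K ∧ dist (p u) (p v) < ε / 4 := by
    rintro v ⟨huK, hr⟩
    have h1 : v ∈ K ∧ Relation.ReflTransGen (fun a b => b ∈ C ∧ dist a b ≤ ρ) (p u) (p v) := by
      induction hr with
      | refl => exact ⟨huK, Relation.ReflTransGen.refl⟩
      | tail _ hbc ih =>
        obtain ⟨hb, hbr⟩ := ih
        obtain ⟨hadj, hc⟩ := hbc
        refine ⟨hc, hbr.tail ⟨(hp _ hc).2, ?_⟩⟩
        exact (brick_adj hδ hadj (hp _ hb).1 (hp _ hc).1).trans hδρ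
    exact ⟨h1.1, hch (p u) (hp u huK).2 _ h1.2⟩
  rintro z ⟨v, hv, hz⟩ w ⟨v', hv', hw⟩
  obtain ⟨hvK, hvd⟩ := key v hv
  obtain ⟨hvK', hvd'⟩ := key v' hv'
  have h1 := brick_diam hδ hz (hp v hvK).1
  have h2 := brick_diam hδ (hp v' hvK').1 hw
  have h3 := dist_triangle z (p v) w
  have h4 := dist_triangle (p v) (p u) w
  have h5 := dist_triangle (p u) (p v') w
  rw [dist_comm (p v) (p u)] at h4
  linarith

end Pool.Agent.TameB
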