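import Pool.Agent.TameB.Fill
import Pool.Agent.TameB.GridB

/-!
# TAMEB: a filled cluster is small
-/

set_option autoImplicit false

namespace Pool.Agent.TameB

open Set Topology Filter Pool.Agent.TriPerc

private theorem fillSmall_pts {δ : ℝ} (hδ : 0 < δ) {K : Set V} (hK : K.Finite) {z : Pt}
    (hz : z ∈ Reg δ (fill K)) :
    (∃ p ∈ Reg δ K, p.1 = z.1 ∧ z.2 ≤ p.2) ∧ ∃ q ∈ Reg δ K, q.1 = z.1 ∧ q.2 ≤ z.2 := by
  obtain ⟨v, hv, hzv⟩ := hz
  obtain ⟨⟨k, hk, h1, h2⟩, k', hk', h3, h4⟩ := fill_col hK hv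
  rw [mem_brick] at hzv
  obtain ⟨⟨a1, a2⟩, a3, a4⟩ := hzv
  have c1 : (v.2 : ℝ) ≤ k.2 := by exact_mod_cast h2
  have c2 : (k'.2 : ℝ) ≤ v.2 := by exact_mod_cast h4
  have d1 : (k.1 : ℝ) = v.1 := by exact_mod_cast h1
  have d2 : (k'.1 : ℝ) = v.1 := by exact_mod_cast h3
  constructor
  · refine ⟨(z.1, z.2 + δ * (k.2 - v.2)), ⟨k, hk, mem_brick.2 ⟨⟨?_, ?_⟩, ?_, ?_⟩⟩, rfl, ?_⟩
    · rw [d1]
      exact a1
    · rw [d1]
      exact a2
    · rw [d1]
      simp only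
      linarith
    · rw [d1]
      simp only
      linarith
    · simp only
      have := mul_nonneg hδ.le (sub_nonneg.2 c1)
      linarith
  · refine ⟨(z.1, z.2 - δ * (v.2 - k'.2)), ⟨k', hk', mem_brick.2 ⟨⟨?_, ?_⟩, ?_, ?_⟩⟩, rfl, ?_⟩
    · rw [d2]
      exact a1
    · rw [d2]
      exact a2
    · rw [d2]
      simp only
      linarith
    · rw [d2]
      simp only
      linarith
    · simp only
      have := mul_nonneg hδ.le (sub_nonneg.2 c2)
      linarith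

/-- The size of a filled cluster.  PROOF: `fill_col`: the brick of `v ∈ fill K` lies in its
column between two bricks of `K` (or is one of them), so both coordinates of a point of it are
between the coordinates of points of `Reg δ K`; hence `dist z w ≤ D` (sup metric). -/
theorem reg_fill_small {δ D : ℝ} (hδ : 0 < δ) {K : Set V} (hK : K.Finite)
    (hD : ∀ z ∈ Reg δ K, ∀ w ∈ Reg δ K, dist z w ≤ D) :
    ∀ z ∈ Reg δ (fill K), ∀ w ∈ Reg δ (fill K), dist z w ≤ D := by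
  intro z hz w hw
  obtain ⟨⟨p, hp, p1, p2⟩, q, hq, q1, q2⟩ := fillSmall_pts hδ hK hz
  obtain ⟨⟨r, hr, r1, r2⟩, s, hs, s1, s2⟩ := fillSmall_pts hδ hK hw
  have key : ∀ a ∈ Reg δ K, ∀ b ∈ Reg δ K, |a.1 - b.1| ≤ D ∧ |a.2 - b.2| ≤ D := by
    intro a ha b hb
    have h := hD a ha b hb
    rw [Prod.dist_eq, Real.dist_eq, Real.dist_eq] at h
    exact ⟨(le_max_left _ _).trans h, (le_max_right _ _).trans h⟩
  have e1 := (key p hp r hr).1
  rw [p1, r1] at e1
  have e2 := (abs_le.1 (key p hp s hs).2).2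
  have e3 := (abs_le.1 (key q hq r hr).2).1
  rw [Prod.dist_eq, Real.dist_eq, Real.dist_eq]
  refine max_le e1 (abs_le.2 ⟨?_, ?_⟩)
  · linarith
  · linarith

end Pool.Agent.TameB
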