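import Pool.Agent.TameB.Contract
import Pool.Agent.TameB.FillSmall
import Pool.Agent.TameB.Cluster
import Pool.Agent.TameB.Animals

/-!
# TAMEB: the cells
-/

set_option autoImplicit false

namespace Pool.Agent.TameB

open Set Topology Filter Pool.Agent.TriPerc

/-- The cells.  PROOF: `cluster_small` (with `ε / 2`), `exists_animals` for the finite set `A` of the
bricks which meet `C`, `D B = Nb η (Reg δ B)` with `η = δ / 8`; they are pairwise disjoint
(`disjoint_Nb`); `C ⊆ Reg δ A`; `C ∩ D B ⊆ Reg δ B`, since a point of `C` is in `Reg δ B'` for some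
`B'` of the family and `D B`, `D B'` are disjoint if `B' ≠ B`; the cells have diameter
`≤ ε / 2 + 2 η ≤ ε` by `reg_fill_small`; `isCell_of_animal`. -/
theorem exists_cells {C : Set Pt} (hC : IsCompact C) (hd : IsTotallyDisconnected C) {ε : ℝ}
    (hε : 0 < ε) :
    ∃ (F : Finset (Set Pt)), (∀ D ∈ F, IsOpen D ∧ IsCell C D ∧
        ∀ z ∈ D, ∀ w ∈ D, dist z w ≤ ε) ∧
      (∀ D ∈ F, ∀ D' ∈ F, D ≠ D' → Disjoint D D') ∧ ∀ z ∈ C, ∃ D ∈ F, z ∈ D := by
  classical
  obtain ⟨δ, hδ, hδε, hcl⟩ := cluster_small hC hd (half_pos hε)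
  have hA : {v : V | (brick δ v ∩ C).Nonempty}.Finite := finite_bricks hδ hC.isBounded
  obtain ⟨F, hF1, hF2, hF3⟩ := exists_animals hA
  have hη : 0 < δ / 8 := by positivity
  have hη4 : δ / 8 < δ / 4 := by linarith
  have hmem : ∀ x ∈ C, ∃ B ∈ F, x ∈ Reg δ B := by
    intro x hx
    obtain ⟨v, hv⟩ := exists_brick hδ x
    obtain ⟨B, hB, hvB⟩ := hF3 v ⟨x, hv, hx⟩
    exact ⟨B, hB, v, hvB, hv⟩
  have hself : ∀ B : Set V, ∀ x ∈ Reg δ B, x ∈ Nb (δ / 8) (Reg δ B) := fun B x hx =>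
    ⟨x, hx, by rw [dist_self]; exact hη⟩
  refine ⟨F.image fun B => Nb (δ / 8) (Reg δ B), ?_, ?_, ?_⟩
  · intro D hD
    obtain ⟨B, hB, rfl⟩ := Finset.mem_image.1 hD
    obtain ⟨hBa, u, hu, hBu⟩ := hF1 B hB
    refine ⟨isOpen_Nb _ _, isCell_of_animal hη hη4 hBa ?_, ?_⟩
    · rintro x ⟨hxC, hxN⟩
      obtain ⟨B', hB', hxB'⟩ := hmem x hxC
      by_cases hBB : B = B'
      · rw [hBB]
        exact hxB'
      · exact absurd (hself B' x hxB')
          (Set.disjoint_left.1 (disjoint_Nb hδ hη4.le (hF2 B hB B' hB' hBB)) hxN)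
    · rintro z ⟨z', hz', hz⟩ w ⟨w', hw', hw⟩
      rw [hBu] at hz' hw'
      have h1 := reg_fill_small hδ (hA.subset comp_subset) (hcl u hu) z' hz' w' hw'
      have h2 := dist_triangle4 z z' w' w
      rw [dist_comm w' w] at h2
      linarith
  · intro D hD D' hD' hne
    obtain ⟨B, hB, rfl⟩ := Finset.mem_image.1 hD
    obtain ⟨B', hB', rfl⟩ := Finset.mem_image.1 hD'
    exact disjoint_Nb hδ hη4.le (hF2 B hB B' hB' fun h => hne (by rw [h]))
  · intro z hz
    obtain ⟨B, hB, hzB⟩ := hmem z hz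
    exact ⟨_, Finset.mem_image_of_mem _ hB, hself B z hzB⟩

end Pool.Agent.TameB
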