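import Mathlib

/-!
# TAMEB: chains in compact totally disconnected sets are small
-/

set_option autoImplicit false

namespace Pool.Agent.TameB

open Set Topology Filter

/-- PROOF: for `x ∈ C` there is a relatively clopen neighbourhood `U x` of `x` in `C` of diameter
`< ε` (`compact_exists_isClopen_in_isOpen` in the subtype), and the distance of the compact sets
`U x` and `C \ U x` is positive (or `C \ U x` is empty); take finitely many `U x` which cover `C` and
let `ρ` be less than all these distances.  A `ρ`-chain which starts in `U x` stays in `U x`. -/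
theorem exists_chain_bound {X : Type*} [MetricSpace X] {C : Set X} (hC : IsCompact C)
    (hd : IsTotallyDisconnected C) {ε : ℝ} (hε : 0 < ε) :
    ∃ ρ : ℝ, 0 < ρ ∧ ∀ x ∈ C, ∀ y, Relation.ReflTransGen (fun a b => b ∈ C ∧ dist a b ≤ ρ) x y →
      dist x y < ε := by
  have : CompactSpace C := isCompact_iff_compactSpace.1 hC
  have : TotallyDisconnectedSpace C := totallyDisconnectedSpace_subtype_iff.2 hd
  have h1 : ∀ x : C, ∃ V : Set C, IsClopen V ∧ x ∈ V ∧ V ⊆ Metric.ball x (ε / 2) := fun x =>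
    compact_exists_isClopen_in_isOpen Metric.isOpen_ball (Metric.mem_ball_self (half_pos hε))
  choose V hVc hVx hVb using h1
  have h2 : ∀ x : C, ∃ r : ℝ, 0 < r ∧ ∀ a ∈ V x, ∀ b ∈ (V x)ᶜ, r < dist a b := by
    intro x
    obtain ⟨r, hr, h⟩ := Metric.exists_pos_forall_lt_edist (hVc x).isClosed.isCompact
      (hVc x).compl.isClosed disjoint_compl_right
    refine ⟨r, hr, fun a ha b hb => ?_⟩
    have h3 := h a ha b hb
    rw [edist_nndist, ENNReal.coe_lt_coe] at h3
    exact_mod_cast h3
  choose r hr hrV using h2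
  obtain ⟨t, ht⟩ := CompactSpace.elim_nhds_subcover V
    (fun x => (hVc x).isOpen.mem_nhds (hVx x))
  have h4 : ∃ ρ : ℝ, 0 < ρ ∧ ∀ i ∈ t, ρ ≤ r i := by
    rcases t.eq_empty_or_nonempty with h | h
    · subst h
      exact ⟨1, one_pos, fun i hi => absurd hi (Finset.notMem_empty i)⟩
    · obtain ⟨i, hi, him⟩ := t.exists_min_image r h
      exact ⟨r i, hr i, fun j hj => him j hj⟩
  obtain ⟨ρ, hρ, hρt⟩ := h4
  refine ⟨ρ, hρ, fun x hx y hxy => ?_⟩
  have h5 : (⟨x, hx⟩ : C) ∈ ⋃ i ∈ t, V i := by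
    rw [ht]
    trivial
  simp only [mem_iUnion, exists_prop] at h5
  obtain ⟨i, hi, hxi⟩ := h5
  have h6 : ∃ hy : y ∈ C, (⟨y, hy⟩ : C) ∈ V i := by
    induction hxy with
    | refl => exact ⟨hx, hxi⟩
    | tail _ hbc ih =>
      obtain ⟨hb, hbV⟩ := ih
      obtain ⟨hc, hd'⟩ := hbc
      refine ⟨hc, ?_⟩
      by_contra hcV
      have h7 := hrV i _ hbV _ hcV
      rw [Subtype.dist_eq] at h7
      have h8 := hρt i hi
      exact absurd (lt_of_lt_of_le h7 hd') (not_lt.2 h8)
  obtain ⟨hy, hyi⟩ := h6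
  have h9 := hVb i hxi
  have h10 := hVb i hyi
  rw [Metric.mem_ball, Subtype.dist_eq] at h9 h10
  have h11 := dist_triangle_right x y (i : X)
  simp only at h9 h10
  linarith

end Pool.Agent.TameB
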