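import Pool.Agent.TameB.Defs

/-!
# TAMEB: crossing numbers

`chi z x y` is the number (mod 2) of crossings of the edge `x y` with the ray which goes up from
`z` between the columns `z.1` and `z.1 + 1`.
-/

set_option autoImplicit false

namespace Pool.Agent.TameB

open Set Topology Filter Pool.Agent.TriPerc

/-- `x` is in column `z.1` above `z` and `y` is in column `z.1 + 1`. -/
def Crs (z x y : V) : Prop := x.1 = z.1 ∧ z.2 < x.2 ∧ y.1 = z.1 + 1

open Classical in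
/-- The crossing number of the edge `x y` with the ray going up from `z`. -/
noncomputable def chi (z x y : V) : ZMod 2 := if Crs z x y ∨ Crs z y x then 1 else 0

private theorem chi_aux {p q r s : Prop} {_ : Decidable p} {_ : Decidable q}
    {_ : Decidable r} {_ : Decidable s} (h1 : (p ∧ q) ∨ (¬ p ∧ ¬ q) → (r ∧ s) ∨ (¬ r ∧ ¬ s))
    (h2 : (r ∧ s) ∨ (¬ r ∧ ¬ s) → (p ∧ q) ∨ (¬ p ∧ ¬ q)) :
    (if p then (1 : ZMod 2) else 0) + (if q then (1 : ZMod 2) else 0) =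
      (if r then (1 : ZMod 2) else 0) + (if s then (1 : ZMod 2) else 0) := by
  by_cases hp : p <;> by_cases hq : q <;> by_cases hr : r <;> by_cases hs : s <;>
    simp_all <;> decide

private theorem chi_aux0 {p q : Prop} {_ : Decidable p} {_ : Decidable q} (h1 : p ↔ q) :
    (if p then (1 : ZMod 2) else 0) + (if q then (1 : ZMod 2) else 0) = (0 : ZMod 2) + 0 := by
  by_cases hp : p
  · have hq : q := h1.1 hp
    rw [if_pos hp, if_pos hq]
    decide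
  · have hq : ¬ q := fun h => hp (h1.2 h)
    rw [if_neg hp, if_neg hq]

open Classical in
private theorem chi_case (z z' : V) (a b : ℤ)
    (h : (z'.1 = z.1 + 1 ∧ z'.2 = z.2 ∧ a = z.1 + 1 ∧ b = z.2) ∨
      (z'.1 = z.1 + 1 ∧ z'.2 = z.2 - 1 ∧ a = z.1 + 1 ∧ b = z.2 - 1)) :
    ∀ x y, Adj x y → x ≠ z → x ≠ z' → y ≠ z → y ≠ z' →
      chi z x y + chi z' x y = (fun u : V => if u.1 = a ∧ b < u.2 then (1 : ZMod 2) else 0) x +
        (fun u : V => if u.1 = a ∧ b < u.2 then (1 : ZMod 2) else 0) y := by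
  intro x y hxy h1 h2 h3 h4
  obtain ⟨x1, x2⟩ := x
  obtain ⟨y1, y2⟩ := y
  obtain ⟨z1, z2⟩ := z
  obtain ⟨w1, w2⟩ := z'
  simp only [ne_eq, Prod.mk.injEq, Adj] at hxy h1 h2 h3 h4 h
  unfold chi Crs
  rcases h with ⟨rfl, rfl, rfl, rfl⟩ | ⟨rfl, rfl, rfl, rfl⟩ <;>
  rcases hxy with ⟨rfl, rfl⟩ | ⟨rfl, rfl⟩ | ⟨rfl, rfl⟩ | ⟨rfl, rfl⟩ | ⟨rfl, rfl⟩ | ⟨rfl, rfl⟩ <;>
  (refine chi_aux ?_ ?_ <;> intro hh <;> omega)

private theorem chi_col (z z' : V) (h : z'.1 = z.1) (h' : z'.2 = z.2 + 1) :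
    ∀ x y, Adj x y → x ≠ z → x ≠ z' → y ≠ z → y ≠ z' →
      chi z x y + chi z' x y = (fun _ : V => (0 : ZMod 2)) x + (fun _ : V => (0 : ZMod 2)) y := by
  intro x y hxy h1 h2 h3 h4
  obtain ⟨x1, x2⟩ := x
  obtain ⟨y1, y2⟩ := y
  obtain ⟨z1, z2⟩ := z
  obtain ⟨w1, w2⟩ := z'
  simp only [ne_eq, Prod.mk.injEq, Adj] at hxy h1 h2 h3 h4 h h'
  unfold chi Crs
  subst h h'
  rcases hxy with ⟨rfl, rfl⟩ | ⟨rfl, rfl⟩ | ⟨rfl, rfl⟩ | ⟨rfl, rfl⟩ | ⟨rfl, rfl⟩ | ⟨rfl, rfl⟩ <;>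
  (refine chi_aux0 ⟨?_, ?_⟩ <;> intro hh <;> omega)

private theorem chi_symm {z z' : V} {g : V → ZMod 2}
    (h : ∀ x y, Adj x y → x ≠ z → x ≠ z' → y ≠ z → y ≠ z' →
      chi z x y + chi z' x y = g x + g y) :
    ∀ x y, Adj x y → x ≠ z' → x ≠ z → y ≠ z' → y ≠ z →
      chi z' x y + chi z x y = g x + g y := by
  intro x y hxy h1 h2 h3 h4
  rw [add_comm]
  exact h x y hxy h2 h1 h4 h3

/-- Local identity.  PROOF: by symmetry (`ZMod 2`, exchange `z` and `z'`) there are three cases.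
`z' = (z.1, z.2 + 1)`: `g = 0` (an edge where the two differ starts at `z'`).
`z' = (z.1 + 1, z.2)`: `g` is the indicator of `U = {(z.1 + 1, b) | z.2 < b}`.
`z' = (z.1 + 1, z.2 - 1)`: `g` is the indicator of `U = {(z.1 + 1, b) | z.2 - 1 < b}`.
An edge from `U` to column `z.1` is counted in `chi z`, an edge from `U` to column `z.1 + 2` is
counted in `chi z'`, and all counted edges arise in this way, since `z` and `z'` are excluded. -/
theorem chi_step {z z' : V} (h : Adj z z') :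
    ∃ g : V → ZMod 2, ∀ x y, Adj x y → x ≠ z → x ≠ z' → y ≠ z → y ≠ z' →
      chi z x y + chi z' x y = g x + g y := by
  classical
  have h0 := h
  unfold Adj at h0
  rcases h0 with h1 | h1 | h1 | h1 | h1 | h1
  · exact ⟨_, chi_case z z' (z.1 + 1) z.2 (Or.inl ⟨h1.1, h1.2, rfl, rfl⟩)⟩
  · exact ⟨fun _ => 0, chi_col z z' h1.1 h1.2⟩
  · refine ⟨_, chi_symm (chi_case z' z (z'.1 + 1) (z'.2 - 1) (Or.inr ⟨?_, ?_, rfl, rfl⟩))⟩ <;>
      omega
  · refine ⟨_, chi_symm (chi_case z' z (z'.1 + 1) z'.2 (Or.inl ⟨?_, ?_, rfl, rfl⟩))⟩ <;> omega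
  · refine ⟨fun _ => 0, chi_symm (chi_col z' z ?_ ?_)⟩ <;> omega
  · exact ⟨_, chi_case z z' (z.1 + 1) (z.2 - 1) (Or.inr ⟨h1.1, h1.2, rfl, rfl⟩)⟩

/-- PROOF: induction along the path from `z` to `z'` off `B` with `chi_step`; sum the `g`. -/
theorem chi_path {B : Set V} {z z' : V} (h : Conn Bᶜ z z') :
    ∃ g : V → ZMod 2, ∀ x ∈ B, ∀ y ∈ B, Adj x y → chi z x y + chi z' x y = g x + g y := by
  obtain ⟨hz, h⟩ := h
  induction h with
  | refl => exact ⟨fun _ => 0, fun x _ y _ _ => by simp [CharTwo.add_self_eq_zero]⟩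
  | @tail w w' hw hs ih =>
    obtain ⟨g, hg⟩ := ih
    have hwB : w ∈ Bᶜ := Conn.right (⟨hz, hw⟩ : Conn Bᶜ z w)
    obtain ⟨g', hg'⟩ := chi_step hs.1
    refine ⟨fun u => g u + g' u, fun x hx y hy hxy => ?_⟩
    have e1 := hg x hx y hy hxy
    have e2 := hg' x y hxy (fun e => hwB (e ▸ hx)) (fun e => hs.2 (e ▸ hx))
      (fun e => hwB (e ▸ hy)) (fun e => hs.2 (e ▸ hy))
    have e3 : chi w x y + chi w x y = 0 := CharTwo.add_self_eq_zero _
    calc chi z x y + chi w' x y = (chi z x y + chi w x y) + (chi w x y + chi w' x y)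
          - (chi w x y + chi w x y) := by ring
      _ = (g x + g' x) + (g y + g' y) := by rw [e1, e2, e3]; ring

end Pool.Agent.TameB
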