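import Pool.Agent.TameB.Sides

/-!
# TAMEB: an animal with more than one strip has a leaf strip
-/

set_option autoImplicit false

namespace Pool.Agent.TameB

open Set Topology Filter Pool.Agent.TriPerc

/-- Every component of `B` minus the strip is attached to it by one strip.  PROOF: the columns of
`u` and `v` are `a ± 1` (`adj_col`), and equal by `not_opposite` (used for `u, v` and for
`v, u`); then `right_same` / `left_same` show that all vertices between `u` and `v` are in `B`, so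
`u` and `v` are in the same strip (`conn_col`-like argument; the strip of `u` is a maximal run). -/
theorem same_strip {B : Set V} (hB : IsAnimal B) {a c d : ℤ} (h : IsStrip B a c d) {u v s t : V}
    (huv : Conn (B \ seg a c d) u v) (hs : s ∈ seg a c d) (ht : t ∈ seg a c d)
    (hus : Adj u s) (hvt : Adj v t) {a' c' d' : ℤ} (h' : IsStrip B a' c' d')
    (hu : u ∈ seg a' c' d') : v ∈ seg a' c' d' := by
  have huB := huv.left
  have hvB := huv.right
  obtain ⟨hu1, hu2, hu3⟩ := hu
  have hcol : v.1 = u.1 := by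
    rcases h.adj_col huB.1 huB.2 hs hus with h1 | h1 <;>
      rcases h.adj_col hvB.1 hvB.2 ht hvt with h2 | h2
    · rw [h1, h2]
    · exact (not_opposite hB h huv.symm ht hs hvt hus h2 h1).elim
    · exact (not_opposite hB h huv hs ht hus hvt h1 h2).elim
    · rw [h1, h2]
  have key : ∀ m : ℤ, (u.2 < m ∧ m < v.2) ∨ (v.2 < m ∧ m < u.2) → (a', m) ∈ B := by
    intro m hm
    rcases h.adj_col huB.1 huB.2 hs hus with h1 | h1
    · have e : a' = a + 1 := by rw [← hu1, h1]
      rw [e]
      rcases hm with ⟨h2, h3⟩ | ⟨h2, h3⟩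
      · exact right_same hB h huv hs ht hus hvt h1 (hcol.trans h1) h2 h3
      · exact right_same hB h huv.symm ht hs hvt hus (hcol.trans h1) h1 h2 h3
    · have e : a' = a - 1 := by rw [← hu1, h1]
      rw [e]
      rcases hm with ⟨h2, h3⟩ | ⟨h2, h3⟩
      · exact left_same hB h huv hs ht hus hvt h1 (hcol.trans h1) h2 h3
      · exact left_same hB h huv.symm ht hs hvt hus (hcol.trans h1) h1 h2 h3
  have hv' : (a', v.2) ∈ B := by
    have e : (a', v.2) = v := Prod.ext (by rw [hcol, hu1]) rfl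
    rw [e]
    exact hvB.1
  refine ⟨hcol.trans hu1, ?_, ?_⟩
  · by_contra hcon
    push Not at hcon
    rcases (show v.2 ≤ c' - 1 by omega).lt_or_eq with h2 | h2
    · exact h'.down (key _ (Or.inr ⟨h2, by omega⟩))
    · exact h'.down (by rw [← h2]; exact hv')
  · by_contra hcon
    push Not at hcon
    rcases (show d' + 1 ≤ v.2 by omega).lt_or_eq with h2 | h2
    · exact h'.up (key _ (Or.inl ⟨by omega, h2⟩))
    · exact h'.up (by rw [h2]; exact hv')

/-- An animal is a strip or has a leaf: a strip `T` whose neighbours in `B` all lie in another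
strip `S` of a neighbouring column, and `B \ T` is again an animal (and `S` is a strip of it).
PROOF: suppose that `B` is not a strip.  Consider all pairs of a strip `S` and a vertex
`u ∈ B \ S`, and take one for which `K = comp (B \ S) u` has the least cardinality.  `K` contains a
vertex adjacent to `S` (`B` is connected, `Conn.exit`); let `T` be its strip; `T ⊆ K` and all
vertices of `K` adjacent to `S` are in `T` (`same_strip`).  If there were `u' ∈ K \ T`, then
`comp (B \ T) u' ⊆ K \ T` (a path in `B \ T` which leaves `K` must leave it to `S`, from a vertex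
adjacent to `S`, which is in `T`), contradicting minimality.  So `K = T`.  Every neighbour of `T`
in `B \ T` is in `S` (`comp_adj`).  `B \ T` is connected: a path in `B` to the first vertex of `S`
does not meet `T` unless it starts in it.  The complement of `B \ T` is `Bᶜ ∪ T`, connected by
`IsConn.union`, as the vertex above `T` is not in `B`. -/
theorem exists_leaf {B : Set V} (hB : IsAnimal B) :
    (∃ a c d, IsStrip B a c d ∧ B = seg a c d) ∨
    ∃ a c d a' c' d', IsStrip B a c d ∧ IsStrip B a' c' d' ∧ (a' = a + 1 ∨ a' = a - 1) ∧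
      (∀ x ∈ B, ∀ y ∈ seg a' c' d', x ∉ seg a' c' d' → Adj x y → x ∈ seg a c d) ∧
      (∃ x ∈ seg a c d, ∃ y ∈ seg a' c' d', Adj x y) ∧
      IsAnimal (B \ seg a' c' d') ∧ IsStrip (B \ seg a' c' d') a c d := by
  classical
  by_cases hns : ∃ a c d, IsStrip B a c d ∧ B = seg a c d
  · exact Or.inl hns
  right
  have hex : ∃ n : ℕ, ∃ a c d u, IsStrip B a c d ∧ u ∈ B \ seg a c d ∧
      (comp (B \ seg a c d) u).ncard = n := by
    obtain ⟨v₀, hv₀⟩ := hB.nonempty
    obtain ⟨c, d, h1, -⟩ := exists_strip hB.finite hv₀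
    have h2 : ∃ u, u ∈ B \ seg v₀.1 c d := by
      by_contra hcon
      push Not at hcon
      refine hns ⟨v₀.1, c, d, h1, Set.Subset.antisymm (fun x hx => ?_) h1.sub⟩
      by_contra hx'
      exact hcon x ⟨hx, hx'⟩
    obtain ⟨u, hu⟩ := h2
    exact ⟨_, v₀.1, c, d, u, h1, hu, rfl⟩
  obtain ⟨a, c, d, u, hS, hu, hcard⟩ := Nat.find_spec hex
  have hmin : ∀ a₁ c₁ d₁ u₁, IsStrip B a₁ c₁ d₁ → u₁ ∈ B \ seg a₁ c₁ d₁ →
      (comp (B \ seg a c d) u).ncard ≤ (comp (B \ seg a₁ c₁ d₁) u₁).ncard := by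
    intro a₁ c₁ d₁ u₁ h1 h2
    rw [hcard]
    exact Nat.find_min' hex ⟨a₁, c₁, d₁, u₁, h1, h2, rfl⟩
  have hs₀ : (a, c) ∈ seg a c d := ⟨rfl, le_rfl, hS.le⟩
  have hKsub : comp (B \ seg a c d) u ⊆ B \ seg a c d := comp_subset
  have huK : u ∈ comp (B \ seg a c d) u := Conn.refl hu
  -- a vertex of the component adjacent to the strip
  obtain ⟨x, y, hxK, hyK, hxy, -, hyB⟩ := (hB.conn u hu.1 (a, c) (hS.sub hs₀)).exit huK
    (fun h1 => (hKsub h1).2 hs₀)
  have hyS : y ∈ seg a c d := by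
    by_contra hcon
    exact hyK (comp_adj hxK ⟨hyB.left, hcon⟩ hxy)
  have hxB : x ∈ B \ seg a c d := hKsub hxK
  obtain ⟨c', d', hT, hxT⟩ := exists_strip hB.finite hxB.1
  have hcol : x.1 = a + 1 ∨ x.1 = a - 1 := hS.adj_col hxB.1 hxB.2 hyS hxy
  generalize ha' : x.1 = a' at hT hxT hcol
  have hdisj : ∀ z, z ∈ seg a' c' d' → z ∉ seg a c d := by
    rintro z ⟨h1, -, -⟩ ⟨h2, -, -⟩
    omega
  have hTB : seg a' c' d' ⊆ B \ seg a c d := fun z hz => ⟨hT.sub hz, hdisj z hz⟩
  have hSB : seg a c d ⊆ B \ seg a' c' d' := fun z hz =>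
    ⟨hS.sub hz, fun h1 => hdisj z h1 hz⟩
  have hTK : seg a' c' d' ⊆ comp (B \ seg a c d) u := by
    intro z hz
    have h1 : Conn (B \ seg a c d) u x := hxK
    exact h1.trans ((isConn_seg a' c' d' x hxT z hz).mono hTB)
  have hadj : ∀ w ∈ comp (B \ seg a c d) u, ∀ s' ∈ seg a c d, Adj w s' →
      w ∈ seg a' c' d' := by
    intro w hw s' hs' hws
    have h1 : Conn (B \ seg a c d) u x := hxK
    have h2 : Conn (B \ seg a c d) u w := hw
    exact same_strip hB hS (h1.symm.trans h2) hyS hs' hxy hws hT hxT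
  have hKT : comp (B \ seg a c d) u ⊆ seg a' c' d' := by
    by_contra hcon
    obtain ⟨u', hu'K, hu'T⟩ := Set.not_subset.mp hcon
    have hu'B : u' ∈ B \ seg a' c' d' := ⟨(hKsub hu'K).1, hu'T⟩
    have h1 : comp (B \ seg a' c' d') u' ⊆ comp (B \ seg a c d) u := by
      intro w hw
      by_contra hwK
      obtain ⟨x₁, y₁, k1, k2, k3, k4, k5⟩ := Conn.exit (A := comp (B \ seg a c d) u) hw hu'K hwK
      have h2 : y₁ ∈ seg a c d := by
        by_contra h3
        exact k2 (comp_adj k1 ⟨k5.left.1, h3⟩ k3)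
      exact k4.right.1.2 (hadj x₁ k1 y₁ h2 k3)
    have h2 : comp (B \ seg a' c' d') u' ⊂ comp (B \ seg a c d) u := by
      refine (Set.ssubset_iff_of_subset h1).mpr ⟨x, hxK, fun h3 => ?_⟩
      exact (comp_subset h3).2 hxT
    have h3 := Set.ncard_lt_ncard h2 (hB.finite.subset fun z hz => (hKsub hz).1)
    exact absurd (hmin a' c' d' u' hT hu'B) (not_le.mpr h3)
  have hcomp : ∀ p ∈ B \ seg a' c' d', Conn (B \ seg a' c' d') p (a, c) := by
    intro p hp
    by_cases hpS : p ∈ seg a c d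
    · exact (isConn_seg a c d p hpS (a, c) hs₀).mono hSB
    · obtain ⟨x₁, y₁, k1, k2, k3, k4, -⟩ := Conn.exit (A := (seg a c d)ᶜ)
        (hB.conn p hp.1 (a, c) (hS.sub hs₀)) hpS (not_not_intro hs₀)
      have k2' : y₁ ∈ seg a c d := not_not.mp k2
      have k6 : Conn (B \ seg a c d) p x₁ := k4.mono fun z hz => ⟨hz.1, hz.2⟩
      have k7 : Conn (B \ seg a' c' d') p x₁ := by
        refine k6.in_comp.mono fun z hz => ⟨(comp_subset hz).1, fun hzT => ?_⟩
        have h1 : Conn (B \ seg a c d) p z := hz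
        have h2 : Conn (B \ seg a c d) u z := hTK hzT
        exact hp.2 (hKT (h2.trans h1.symm))
      exact (k7.trans (Conn.of_adj k7.right (hSB k2') k3)).trans
        ((isConn_seg a c d y₁ k2' (a, c) hs₀).mono hSB)
  refine ⟨a, c, d, a', c', d', hS, hT, hcol, ?_, ⟨y, hyS, x, hxT, hxy.symm⟩,
    ⟨hB.finite.subset Set.sdiff_subset, ⟨(a, c), hSB hs₀⟩, fun p hp q hq => ?_, ?_⟩,
    ⟨hS.le, hSB, fun h1 => hS.up h1.1, fun h1 => hS.down h1.1⟩⟩
  · intro x₁ h1 y₁ h2 h3 h4
    by_contra h5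
    exact h3 (hKT (comp_adj (hTK h2) ⟨h1, h5⟩ h4.symm))
  · exact (hcomp p hp).trans (hcomp q hq).symm
  · have e : (B \ seg a' c' d')ᶜ = Bᶜ ∪ seg a' c' d' := by
      ext z
      simp only [Set.mem_compl_iff, Set.mem_sdiff, Set.mem_union]
      tauto
    rw [e]
    exact hB.coconn.union (isConn_seg a' c' d') ⟨(a', d' + 1), hT.up, (a', d'),
      ⟨rfl, hT.le, le_rfl⟩, Or.inr (Or.inr (Or.inr (Or.inr (Or.inr (Or.inl ⟨rfl, by ring⟩)))))⟩

end Pool.Agent.TameB
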