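import Pool.Agent.TameB.PushR
import Pool.Agent.TameB.GridB

/-!
# TAMEB: squeezing a strip and a brick
-/

set_option autoImplicit false

namespace Pool.Agent.TameB

open Set Topology Filter Pool.Agent.TriPerc

private theorem squeezeStrip_clamp {x₁ x₂ t η : ℝ} (h : x₁ ≤ x₂) (hη : 0 < η) (h1 : x₁ - η < t)
    (h2 : t < x₂ + η) : ∃ s, x₁ ≤ s ∧ s ≤ x₂ ∧ dist t s < η := by
  rcases lt_or_ge t x₁ with ht | ht
  · refine ⟨x₁, le_rfl, h, ?_⟩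
    rw [Real.dist_eq, abs_lt]
    constructor <;> linarith
  · rcases lt_or_ge x₂ t with ht' | ht'
    · refine ⟨x₂, h, le_rfl, ?_⟩
      rw [Real.dist_eq, abs_lt]
      constructor <;> linarith
    · refine ⟨t, ht, ht', ?_⟩
      rw [dist_self]
      exact hη

private theorem squeezeStrip_rect {x₁ x₂ y₁ y₂ η : ℝ} (hx : x₁ ≤ x₂) (hy : y₁ ≤ y₂) (hη : 0 < η)
    {z : Pt} (hz : x₁ - η < z.1 ∧ z.1 < x₂ + η ∧ y₁ - η < z.2 ∧ z.2 < y₂ + η) :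
    ∃ w : Pt, (x₁ ≤ w.1 ∧ w.1 ≤ x₂) ∧ (y₁ ≤ w.2 ∧ w.2 ≤ y₂) ∧ dist z w < η := by
  obtain ⟨s, hs1, hs2, hs3⟩ := squeezeStrip_clamp hx hη hz.1 hz.2.1
  obtain ⟨t, ht1, ht2, ht3⟩ := squeezeStrip_clamp hy hη hz.2.2.1 hz.2.2.2
  refine ⟨(s, t), ⟨hs1, hs2⟩, ⟨ht1, ht2⟩, ?_⟩
  rw [Prod.dist_eq]
  exact max_lt hs3 ht3

/-- A single strip can be squeezed into its lowest brick.  PROOF: `exists_squeeze_rect`,
`mem_reg_seg`. -/
theorem exists_squeeze_strip {δ η : ℝ} (hη : 0 < η) (hδ : 0 < δ) {a c d : ℤ} (h : c ≤ d) :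
    ∃ f : Pt ≃ₜ Pt, SuppIn f (Nb η (Reg δ (seg a c d))) ∧
      ∀ z ∈ Reg δ (seg a c d), f z ∈ brick δ (a, c) := by
  have hcd : (c : ℝ) ≤ d := by exact_mod_cast h
  have hx : δ * (a : ℝ) < δ * (a + 1) := by nlinarith
  have hy : δ * ((c : ℝ) + a / 2) < δ * (c + a / 2 + 1) := by nlinarith
  have hy' : δ * ((c : ℝ) + a / 2 + 1) ≤ δ * (d + a / 2 + 1) :=
    mul_le_mul_of_nonneg_left (by linarith) hδ.le
  obtain ⟨f, hf, hf'⟩ := exists_squeeze_rect (x₁ := δ * a) (x₂ := δ * (a + 1))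
    (y₁ := δ * (c + a / 2)) (y₂ := δ * (d + a / 2 + 1)) (a₁ := δ * a) (a₂ := δ * (a + 1))
    (b₁ := δ * (c + a / 2)) (b₂ := δ * (c + a / 2 + 1)) hη le_rfl hx le_rfl le_rfl hy hy'
  refine ⟨f, hf.mono ?_, ?_⟩
  · intro z hz
    obtain ⟨w, hw1, hw2, hw3⟩ := squeezeStrip_rect hx.le (hy.le.trans hy') hη hz
    exact ⟨w, (mem_reg_seg hδ h).2 ⟨hw1, hw2⟩, hw3⟩
  · intro z hz
    obtain ⟨h1, h2⟩ := (mem_reg_seg hδ h).1 hz
    obtain ⟨h3, h4, h5, h6⟩ := hf' z h1.1 h1.2 h2.1 h2.2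
    exact mem_brick.2 ⟨⟨h3, h4⟩, h5, h6⟩

/-- Squeeze a brick to a small square round an interior point.  PROOF: `exists_squeeze_rect`. -/
theorem exists_squeeze_brick {δ η : ℝ} (hη : 0 < η) (hδ : 0 < δ) (v : V) {p : Pt}
    (hp : p ∈ interior (brick δ v)) {σ : ℝ} (hσ : 0 < σ) :
    ∃ f : Pt ≃ₜ Pt, SuppIn f (Nb η (brick δ v)) ∧
      ∀ z ∈ brick δ v, f z ∈ Metric.closedBall p σ := by
  obtain ⟨ε, hε, hb⟩ := Metric.isOpen_iff.1 isOpen_interior p hp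
  have hx : δ * (v.1 : ℝ) < δ * (v.1 + 1) := by nlinarith
  have hy : δ * ((v.2 : ℝ) + v.1 / 2) < δ * (v.2 + v.1 / 2 + 1) := by nlinarith
  obtain ⟨τ, hτ, hτε, hτσ⟩ : ∃ τ : ℝ, 0 < τ ∧ τ < ε ∧ τ ≤ σ :=
    ⟨min (ε / 2) σ, lt_min (by linarith) hσ, (min_le_left _ _).trans_lt (by linarith),
      min_le_right _ _⟩
  have key : ∀ s t : ℝ, |s| ≤ τ → |t| ≤ τ → (p.1 + s, p.2 + t) ∈ brick δ v := by
    intro s t hs ht
    apply interior_subset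
    apply hb
    rw [Metric.mem_ball, Prod.dist_eq, Real.dist_eq, Real.dist_eq]
    have e1 : p.1 + s - p.1 = s := by ring
    have e2 : p.2 + t - p.2 = t := by ring
    simp only [e1, e2]
    exact max_lt (hs.trans_lt hτε) (ht.trans_lt hτε)
  have hτa : |τ| ≤ τ := (abs_of_pos hτ).le
  have hτb : |-τ| ≤ τ := by rw [abs_neg]; exact hτa
  have k1 := mem_brick.1 (key τ τ hτa hτa)
  have k2 := mem_brick.1 (key (-τ) (-τ) hτb hτb)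
  simp only at k1 k2
  obtain ⟨f, hf, hf'⟩ := exists_squeeze_rect (x₁ := δ * v.1) (x₂ := δ * (v.1 + 1))
    (y₁ := δ * (v.2 + v.1 / 2)) (y₂ := δ * (v.2 + v.1 / 2 + 1)) (a₁ := p.1 + -τ)
    (a₂ := p.1 + τ) (b₁ := p.2 + -τ) (b₂ := p.2 + τ) hη k2.1.1 (by linarith) k1.1.2
    k2.2.1 (by linarith) k1.2.2
  refine ⟨f, hf.mono ?_, ?_⟩
  · intro z hz
    obtain ⟨w, hw1, hw2, hw3⟩ := squeezeStrip_rect hx.le hy.le hη hz
    exact ⟨w, mem_brick.2 ⟨hw1, hw2⟩, hw3⟩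
  · intro z hz
    obtain ⟨h1, h2⟩ := mem_brick.1 hz
    obtain ⟨h3, h4, h5, h6⟩ := hf' z h1.1 h1.2 h2.1 h2.2
    rw [Metric.mem_closedBall, Prod.dist_eq, Real.dist_eq, Real.dist_eq]
    refine max_le (abs_le.2 ⟨by linarith, by linarith⟩) (abs_le.2 ⟨by linarith, by linarith⟩)

end Pool.Agent.TameB
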