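import Pool.Agent.TameB.PushLeaf
import Pool.Agent.TameB.SqueezeStrip
import Pool.Agent.TameB.Leaf

/-!
# TAMEB: contraction of an animal into one of its bricks
-/

set_option autoImplicit false

namespace Pool.Agent.TameB

open Set Topology Filter Pool.Agent.TriPerc

private theorem contract_reg_mono {δ : ℝ} {B B' : Set V} (h : B' ⊆ B) :
    Reg δ B' ⊆ Reg δ B := by
  rintro z ⟨v, hv, hz⟩
  exact ⟨v, h hv, hz⟩

private theorem contract_nb_mono {η : ℝ} {S T : Set Pt} (h : S ⊆ T) : Nb η S ⊆ Nb η T := by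
  rintro z ⟨w, hw, hz⟩
  exact ⟨w, h hw, hz⟩

/-- PROOF: strong induction on `B.ncard` with `exists_leaf`, `exists_push_leaf`,
`exists_squeeze_strip`; `Nb η (Reg δ B') ⊆ Nb η (Reg δ B)` for `B' ⊆ B`. -/
theorem exists_contract {δ η : ℝ} (hη : 0 < η) (hηδ : η < δ / 4) {B : Set V}
    (hB : IsAnimal B) :
    ∃ u ∈ B, ∃ f : Pt ≃ₜ Pt, SuppIn f (Nb η (Reg δ B)) ∧ ∀ z ∈ Reg δ B, f z ∈ brick δ u := by
  have hδ : 0 < δ := by linarith
  obtain ⟨n, hn⟩ : ∃ n, B.ncard = n := ⟨_, rfl⟩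
  induction n using Nat.strong_induction_on generalizing B with
  | _ n ih =>
    rcases exists_leaf hB with ⟨a, c, d, hs, rfl⟩ |
      ⟨a, c, d, a', c', d', hS, hT, ha, hN, hA, hB', -⟩
    · obtain ⟨f, hf, hf'⟩ := exists_squeeze_strip hη hδ (a := a) hs.le
      exact ⟨(a, c), ⟨rfl, le_rfl, hs.le⟩, f, hf, hf'⟩
    · obtain ⟨f, hf, hf'⟩ := exists_push_leaf hη hηδ hS hT ha hN hA
      have hlt : (B \ seg a' c' d').ncard < n := by
        rw [← hn]
        apply Set.ncard_lt_ncard _ hB.finite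
        refine ⟨Set.sdiff_subset, fun h => ?_⟩
        have h1 : ((a', c') : V) ∈ seg a' c' d' := ⟨rfl, le_rfl, hT.le⟩
        exact (h (hT.sub h1)).2 h1
      obtain ⟨u, hu, g, hg, hg'⟩ := ih _ hlt hB' rfl
      refine ⟨u, hu.1, f.trans g, hf.trans (hg.mono ?_), fun z hz => ?_⟩
      · exact contract_nb_mono (contract_reg_mono Set.sdiff_subset)
      · rw [Homeomorph.trans_apply]
        exact hg' _ (hf' z hz)

/-- PROOF: `U` is the interior of the brick `u` of `exists_contract`; compose with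
`exists_squeeze_brick`. -/
theorem isCell_of_animal {δ η : ℝ} (hη : 0 < η) (hηδ : η < δ / 4) {B : Set V}
    (hB : IsAnimal B) {C : Set Pt} (hC : C ∩ Nb η (Reg δ B) ⊆ Reg δ B) :
    IsCell C (Nb η (Reg δ B)) := by
  have hδ : 0 < δ := by linarith
  obtain ⟨u, hu, f, hf, hf'⟩ := exists_contract hη hηδ hB
  have hsub : brick δ u ⊆ Reg δ B := fun z hz => ⟨u, hu, hz⟩
  refine ⟨interior (brick δ u), isOpen_interior, ?_, ?_, ?_⟩
  · unfold brick
    rw [interior_prod_eq, interior_Icc, interior_Icc]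
    refine Set.Nonempty.prod ?_ ?_
    · rw [Set.nonempty_Ioo]
      nlinarith
    · rw [Set.nonempty_Ioo]
      nlinarith
  · intro z hz
    exact ⟨z, hsub (interior_subset hz), by rw [dist_self]; exact hη⟩
  · intro p hp σ hσ
    obtain ⟨g, hg, hg'⟩ := exists_squeeze_brick hη hδ u hp hσ
    refine ⟨f.trans g, hf.trans (hg.mono (contract_nb_mono hsub)), fun z hz => ?_⟩
    rw [Homeomorph.trans_apply]
    exact hg' _ (hf' z (hC hz))

end Pool.Agent.TameB
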