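import Pool.Agent.TriPerc.Pth
import Mathlib

/-!
# TAMEB: small cells round a totally disconnected compact set of the plane (MP_5d2250_gt)

`Pt = ℝ × ℝ` carries the sup metric, so closed balls are closed squares.  Goal (`exists_cells`): a
compact totally disconnected set `C` of the plane is covered by finitely many pairwise disjoint
small open sets `D` such that the part of `C` in `D` can be contracted to (almost) a point by a
homeomorphism supported in `D`.

The combinatorics takes place in the triangular lattice `V = ℤ × ℤ` of `Pool.Agent.TriPerc`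
(`Adj`, `Conn`, `IsConn`, `comp`, and the lemmas of `TriPerc/Pth.lean`), realized by bricks.
-/

set_option autoImplicit false

namespace Pool.Agent.TameB

open Set Topology Filter Pool.Agent.TriPerc

/-- The plane with the sup metric. -/
abbrev Pt : Type := ℝ × ℝ

/-- `f` is the identity off `S`. -/
def SuppIn (f : Pt ≃ₜ Pt) (S : Set Pt) : Prop := ∀ z, z ∉ S → f z = z

/-- The open `η`-neighbourhood. -/
def Nb (η : ℝ) (S : Set Pt) : Set Pt := {z | ∃ w ∈ S, dist z w < η}

/-- The brick of the vertex `v = (a, b)`: column `a`, shifted by half a brick per column. -/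
def brick (δ : ℝ) (v : V) : Set Pt :=
  Icc (δ * v.1) (δ * (v.1 + 1)) ×ˢ Icc (δ * (v.2 + v.1 / 2)) (δ * (v.2 + v.1 / 2 + 1))

/-- The union of the bricks of `B`. -/
def Reg (δ : ℝ) (B : Set V) : Set Pt := {z | ∃ v ∈ B, z ∈ brick δ v}

/-- The vertices which can be joined to infinity (to the right) off `K`. -/
def Ext (K : Set V) : Set V := {v | ∀ N : ℤ, ∃ w : V, N ≤ w.1 ∧ Conn Kᶜ v w}

/-- `K` with its holes filled. -/
def fill (K : Set V) : Set V := (Ext K)ᶜ

/-- The vertical segment `(a, b)`, `c ≤ b ≤ d`. -/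
def seg (a c d : ℤ) : Set V := {v | v.1 = a ∧ c ≤ v.2 ∧ v.2 ≤ d}

/-- `seg a c d` is a strip (maximal vertical run) of `B`. -/
structure IsStrip (B : Set V) (a c d : ℤ) : Prop where
  le : c ≤ d
  sub : seg a c d ⊆ B
  up : (a, d + 1) ∉ B
  down : (a, c - 1) ∉ B

/-- `B` is an animal: finite, nonempty, connected with connected complement. -/
structure IsAnimal (B : Set V) : Prop where
  finite : B.Finite
  nonempty : B.Nonempty
  conn : IsConn B
  coconn : IsConn Bᶜ

/-- No vertex of `B` is equal or adjacent to a vertex of `B'`. -/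
def Apart (B B' : Set V) : Prop := ∀ u ∈ B, ∀ v ∈ B', u ≠ v ∧ ¬ Adj u v

/-- `D` is a cell for `C`: for all points `p` of a nonempty open subset of `D` the part of `C` in
`D` can be contracted to `p` by homeomorphisms supported in `D`. -/
def IsCell (C D : Set Pt) : Prop :=
  ∃ U : Set Pt, IsOpen U ∧ U.Nonempty ∧ U ⊆ D ∧ ∀ p ∈ U, ∀ σ : ℝ, 0 < σ →
    ∃ f : Pt ≃ₜ Pt, SuppIn f D ∧ ∀ z ∈ C ∩ D, f z ∈ Metric.closedBall p σ

theorem SuppIn.mono {f : Pt ≃ₜ Pt} {S T : Set Pt} (h : SuppIn f S) (hST : S ⊆ T) : SuppIn f T :=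
  fun z hz => h z fun hz' => hz (hST hz')

theorem SuppIn.refl (S : Set Pt) : SuppIn (Homeomorph.refl Pt) S := fun _ _ => rfl

theorem SuppIn.trans {f g : Pt ≃ₜ Pt} {S : Set Pt} (h : SuppIn f S) (h' : SuppIn g S) :
    SuppIn (f.trans g) S := fun z hz => by
  rw [Homeomorph.trans_apply, h z hz, h' z hz]

theorem isOpen_Nb (η : ℝ) (S : Set Pt) : IsOpen (Nb η S) := by
  have h : Nb η S = ⋃ w ∈ S, Metric.ball w η := by
    ext z
    simp [Nb]
  rw [h]
  exact isOpen_biUnion fun _ _ => Metric.isOpen_ball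

end Pool.Agent.TameB
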