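import Pool.Agent.TameB.Defs

/-!
# TAMEB: filling the holes of a finite connected set of vertices
-/

set_option autoImplicit false

namespace Pool.Agent.TameB

open Set Topology Filter Pool.Agent.TriPerc

/-- PROOF: a vertex `v` of `Ext K` is not in `K` (`Conn.left`). -/
theorem subset_fill (K : Set V) : K ⊆ fill K := by
  intro k hk hE
  obtain ⟨w, -, h⟩ := hE 0
  exact h.left hk

/-- A set which is connected off `K` and meets `Ext K` is contained in it. -/
theorem ext_of_conn {K : Set V} {v w : V} (hv : v ∈ Ext K) (h : Conn Kᶜ v w) : w ∈ Ext K := by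
  intro N
  obtain ⟨x, hx, h1⟩ := hv N
  exact ⟨x, hx, h.symm.trans h1⟩

private theorem fill_bound {K : Set V} (hK : K.Finite) :
    ∃ M : ℤ, ∀ k ∈ K, (-M ≤ k.1 ∧ k.1 ≤ M) ∧ -M ≤ k.2 ∧ k.2 ≤ M := by
  obtain ⟨M, hM⟩ := (hK.image fun k : V => max |k.1| |k.2|).bddAbove
  refine ⟨M, fun k hk => ?_⟩
  have h1 : max |k.1| |k.2| ≤ M := hM ⟨k, hk, rfl⟩
  have h2 := (le_max_left _ _).trans h1
  have h3 := (le_max_right _ _).trans h1
  exact ⟨abs_le.1 h2, abs_le.1 h3⟩

/-- if the part of the column of `v` from `v` to a row which misses `K` is off `K`, then `v` is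
exterior -/
private theorem fill_esc {K : Set V} {v : V} {b : ℤ} (hrow : ∀ k ∈ K, k.2 ≠ b)
    (hcol : ∀ c, min v.2 b ≤ c → c ≤ max v.2 b → (v.1, c) ∈ Kᶜ) : v ∈ Ext K := by
  intro N
  refine ⟨(max v.1 N, b), le_max_right _ _, ?_⟩
  have h1 : Conn Kᶜ (v.1, v.2) (v.1, b) := conn_col hcol
  have h2 : Conn Kᶜ (v.1, b) (max v.1 N, b) := conn_row fun c _ _ hc => hrow _ hc rfl
  exact h1.trans h2

/-- The column property.  PROOF: if no vertex of `K` is above `v` (in the same column), then `v` can
be joined off `K` to a vertex above all vertices of `K` (`conn_col`), and from there to the right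
(`conn_row`).  The same below. -/
theorem fill_col {K : Set V} (hK : K.Finite) {v : V} (hv : v ∈ fill K) :
    (∃ k ∈ K, k.1 = v.1 ∧ v.2 ≤ k.2) ∧ ∃ k ∈ K, k.1 = v.1 ∧ k.2 ≤ v.2 := by
  obtain ⟨M, hM⟩ := fill_bound hK
  constructor
  · by_contra hcon
    push Not at hcon
    refine hv (fill_esc (b := max v.2 (M + 1)) (fun k hk h => ?_) fun c h1 _ hc => ?_)
    · have h1 := (hM k hk).2.2
      have h2 := le_max_right v.2 (M + 1)
      omega
    · have h2 := hcon _ hc rfl
      have h3 : v.2 ≤ c := by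
        rwa [min_eq_left (le_max_left _ _)] at h1
      exact absurd h3 (not_le.2 h2)
  · by_contra hcon
    push Not at hcon
    refine hv (fill_esc (b := min v.2 (-M - 1)) (fun k hk h => ?_) fun c _ h1 hc => ?_)
    · have h1 := (hM k hk).2.1
      have h2 := min_le_right v.2 (-M - 1)
      omega
    · have h2 := hcon _ hc rfl
      have h3 : c ≤ v.2 := by
        rwa [max_eq_left (min_le_left _ _)] at h1
      exact absurd h3 (not_le.2 h2)

theorem fill_finite {K : Set V} (hK : K.Finite) : (fill K).Finite := by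
  obtain ⟨M, hM⟩ := fill_bound hK
  refine (Set.finite_Icc ((-M, -M) : V) (M, M)).subset fun v hv => ?_
  obtain ⟨⟨k, hk, h1, h2⟩, k', hk', h3, h4⟩ := fill_col hK hv
  have h5 := hM k hk
  have h6 := hM k' hk'
  exact ⟨Prod.mk_le_mk.2 ⟨by omega, by omega⟩, Prod.mk_le_mk.2 ⟨by omega, by omega⟩⟩

/-- PROOF: two vertices of `Ext K` are joined off `K` to vertices far right, and the vertices far
right are connected (`conn_row`, `conn_col`); all vertices of the path are in `Ext K`. -/
theorem isConn_ext {K : Set V} (hK : K.Finite) : IsConn (Ext K) := by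
  obtain ⟨M, hM⟩ := fill_bound hK
  intro u hu v hv
  obtain ⟨u', h1, h2⟩ := hu (M + 1)
  obtain ⟨v', h3, h4⟩ := hv (M + 1)
  have h5 : ∀ a b : ℤ, M + 1 ≤ a → (a, b) ∈ Kᶜ := by
    intro a b hab hk
    have h6 : a ≤ M := (hM _ hk).1.2
    omega
  have h6 : Conn Kᶜ (u'.1, u'.2) (u'.1, v'.2) := conn_col fun c _ _ => h5 _ _ h1
  have h7 : Conn Kᶜ (u'.1, v'.2) (v'.1, v'.2) := conn_row fun c hc _ =>
    h5 _ _ ((le_min h1 h3).trans hc)
  have h8 : Conn Kᶜ u v := h2.trans ((h6.trans h7).trans h4.symm)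
  exact h8.in_comp.mono fun w hw => ext_of_conn hu hw

/-- PROOF: `v ∈ fill K \ K`: by `fill_col` there is a vertex of `K` above `v`; take the lowest one;
the vertices between are joined to `v` off `K`, so they are in `fill K` (`ext_of_conn` and
`Conn.symm`).  So every vertex of `fill K` is joined to `K` in `fill K`. -/
theorem isConn_fill {K : Set V} (hK : K.Finite) (hc : IsConn K) : IsConn (fill K) := by
  have key : ∀ v ∈ fill K, ∃ k ∈ K, Conn (fill K) v k := by
    intro v hv
    obtain ⟨⟨k, hk, h1, h2⟩, -⟩ := fill_col hK hv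
    classical
    have hex : ∃ n : ℕ, (v.1, v.2 + (n : ℤ)) ∈ K := by
      obtain ⟨n, hn⟩ := Int.le.dest h2
      refine ⟨n, ?_⟩
      rw [hn, ← h1]
      exact hk
    have hlow : ∀ c : ℤ, v.2 ≤ c → c < v.2 + (Nat.find hex : ℤ) → (v.1, c) ∈ Kᶜ := by
      intro c h3 h4 hcK
      obtain ⟨m, rfl⟩ := Int.le.dest h3
      exact Nat.find_min hex (by omega) hcK
    have hfill : ∀ c : ℤ, v.2 ≤ c → c < v.2 + (Nat.find hex : ℤ) → (v.1, c) ∈ fill K := by
      intro c h3 h4 hE
      refine hv (ext_of_conn hE ?_)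
      have h5 : Conn Kᶜ (v.1, c) (v.1, v.2) := conn_col fun d h6 h7 => by
        rw [min_eq_right h3] at h6
        rw [max_eq_left h3] at h7
        exact hlow d h6 (by omega)
      exact h5
    refine ⟨(v.1, v.2 + (Nat.find hex : ℤ)), Nat.find_spec hex, ?_⟩
    have h3 : Conn (fill K) (v.1, v.2) (v.1, v.2 + (Nat.find hex : ℤ)) := conn_col fun c h4 h5 => by
      rw [min_eq_left (by omega)] at h4
      rw [max_eq_right (by omega)] at h5
      rcases h5.lt_or_eq with h6 | h6
      · exact hfill c h4 h6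
      · rw [h6]
        exact subset_fill K (Nat.find_spec hex)
    exact h3
  intro u hu v hv
  obtain ⟨k, hk, h1⟩ := key u hu
  obtain ⟨k', hk', h2⟩ := key v hv
  exact h1.trans (((hc k hk k' hk').mono (subset_fill K)).trans h2.symm)

theorem isAnimal_fill {K : Set V} (hK : K.Finite) (hc : IsConn K) (hn : K.Nonempty) :
    IsAnimal (fill K) where
  finite := fill_finite hK
  nonempty := hn.mono (subset_fill K)
  conn := isConn_fill hK hc
  coconn := by
    rw [fill, compl_compl]
    exact isConn_ext hK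

end Pool.Agent.TameB
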