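import Pool.Agent.TameB.Defs

/-!
# TAMEB: the brick wall
-/

set_option autoImplicit false

namespace Pool.Agent.TameB

open Set Topology Filter Pool.Agent.TriPerc

variable {δ : ℝ}

theorem mem_brick {v : V} {z : Pt} : z ∈ brick δ v ↔
    (δ * v.1 ≤ z.1 ∧ z.1 ≤ δ * (v.1 + 1)) ∧
      δ * (v.2 + v.1 / 2) ≤ z.2 ∧ z.2 ≤ δ * (v.2 + v.1 / 2 + 1) := by
  unfold brick
  exact Iff.rfl

/-- PROOF: `a = ⌊z.1 / δ⌋`, `b = ⌊z.2 / δ - a / 2⌋`. -/
theorem exists_brick (hδ : 0 < δ) (z : Pt) : ∃ v, z ∈ brick δ v := by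
  obtain ⟨a, ha⟩ : ∃ a : ℤ, a = ⌊z.1 / δ⌋ := ⟨_, rfl⟩
  obtain ⟨b, hb⟩ : ∃ b : ℤ, b = ⌊z.2 / δ - a / 2⌋ := ⟨_, rfl⟩
  refine ⟨(a, b), mem_brick.mpr ?_⟩
  have h1 : (a : ℝ) ≤ z.1 / δ := by
    rw [ha]
    exact Int.floor_le _
  have h2 : z.1 / δ < a + 1 := by
    rw [ha]
    exact Int.lt_floor_add_one _
  have h3 : (b : ℝ) ≤ z.2 / δ - a / 2 := by
    rw [hb]
    exact Int.floor_le _
  have h4 : z.2 / δ - a / 2 < b + 1 := by
    rw [hb]
    exact Int.lt_floor_add_one _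
  have e1 : δ * (z.1 / δ) = z.1 := mul_div_cancel₀ _ hδ.ne'
  have e2 : δ * (z.2 / δ) = z.2 := mul_div_cancel₀ _ hδ.ne'
  have g1 := mul_le_mul_of_nonneg_left h1 hδ.le
  have g2 := mul_le_mul_of_nonneg_left h2.le hδ.le
  have g3 := mul_le_mul_of_nonneg_left h3 hδ.le
  have g4 := mul_le_mul_of_nonneg_left h4.le hδ.le
  rw [e1] at g1 g2
  refine ⟨⟨g1, g2⟩, ?_, ?_⟩
  · linarith
  · linarith

private theorem dist_le_of {z w : Pt} {r : ℝ} (h1 : |z.1 - w.1| ≤ r) (h2 : |z.2 - w.2| ≤ r) :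
    dist z w ≤ r := by
  rw [Prod.dist_eq, Real.dist_eq, Real.dist_eq]
  exact max_le h1 h2

private theorem le_dist_fst {z w : Pt} {r : ℝ} (h : r ≤ |z.1 - w.1|) : r ≤ dist z w := by
  rw [Prod.dist_eq, Real.dist_eq, Real.dist_eq]
  exact h.trans (le_max_left _ _)

private theorem le_dist_snd {z w : Pt} {r : ℝ} (h : r ≤ |z.2 - w.2|) : r ≤ dist z w := by
  rw [Prod.dist_eq, Real.dist_eq, Real.dist_eq]
  exact h.trans (le_max_right _ _)

theorem brick_diam (hδ : 0 < δ) {v : V} {z w : Pt} (hz : z ∈ brick δ v) (hw : w ∈ brick δ v) :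
    dist z w ≤ δ := by
  rw [mem_brick] at hz hw
  obtain ⟨⟨a1, a2⟩, a3, a4⟩ := hz
  obtain ⟨⟨b1, b2⟩, b3, b4⟩ := hw
  refine dist_le_of ?_ ?_
  · rw [abs_le]
    constructor <;> linarith
  · rw [abs_le]
    constructor <;> linarith

/-- Non-adjacent bricks have distance at least `δ / 2`.  PROOF: let `u = (a, b)`, `v = (a', b')`.
If `|a - a'| ≥ 2` the columns have distance `≥ δ`.  If `a = a'` then `|b - b'| ≥ 2` (else they are
equal or adjacent) and the distance is `≥ δ`.  If `a' = a + 1` then `b' ∉ {b, b - 1}`, so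
`b' ≥ b + 1` or `b' ≤ b - 2`, and the vertical distance is `≥ δ / 2`.  Likewise `a' = a - 1`. -/
theorem brick_dist (hδ : 0 < δ) {u v : V} (hne : u ≠ v) (hna : ¬ Adj u v) {z w : Pt}
    (hz : z ∈ brick δ u) (hw : w ∈ brick δ v) : δ / 2 ≤ dist z w := by
  obtain ⟨a, b⟩ := u
  obtain ⟨a', b'⟩ := v
  rw [mem_brick] at hz hw
  obtain ⟨⟨z1, z2⟩, z3, z4⟩ := hz
  obtain ⟨⟨w1, w2⟩, w3, w4⟩ := hw
  simp only at z1 z2 z3 z4 w1 w2 w3 w4
  have key : (a + 2 ≤ a' ∨ a' + 2 ≤ a) ∨ (a = a' ∧ (b + 2 ≤ b' ∨ b' + 2 ≤ b)) ∨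
      (a' = a + 1 ∧ (b + 1 ≤ b' ∨ b' + 2 ≤ b)) ∨ (a' = a - 1 ∧ (b + 2 ≤ b' ∨ b' + 1 ≤ b)) := by
    have h1 : a ≠ a' ∨ b ≠ b' := by
      by_contra hcon
      push Not at hcon
      exact hne (Prod.ext hcon.1 hcon.2)
    unfold Adj at hna
    simp only at hna
    omega
  have cast : ∀ {x y : ℤ}, x ≤ y → δ * (x : ℝ) ≤ δ * y := fun h =>
    mul_le_mul_of_nonneg_left (by exact_mod_cast h) hδ.le
  rcases key with (h | h) | ⟨h, h' | h'⟩ | ⟨h, h' | h'⟩ | ⟨h, h' | h'⟩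
  · have g := cast h
    push_cast at g
    refine le_dist_fst (le_trans ?_ (neg_le_abs _))
    linarith
  · have g := cast h
    push_cast at g
    refine le_dist_fst (le_trans ?_ (le_abs_self _))
    linarith
  · have g := cast h'
    subst h
    push_cast at g
    refine le_dist_snd (le_trans ?_ (neg_le_abs _))
    linarith
  · have g := cast h'
    subst h
    push_cast at g
    refine le_dist_snd (le_trans ?_ (le_abs_self _))
    linarith
  · have g := cast h'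
    subst h
    push_cast at g w3 w4
    refine le_dist_snd (le_trans ?_ (neg_le_abs _))
    linarith
  · have g := cast h'
    subst h
    push_cast at g w3 w4
    refine le_dist_snd (le_trans ?_ (le_abs_self _))
    linarith
  · have g := cast h'
    subst h
    push_cast at g w3 w4
    refine le_dist_snd (le_trans ?_ (neg_le_abs _))
    linarith
  · have g := cast h'
    subst h
    push_cast at g w3 w4
    refine le_dist_snd (le_trans ?_ (le_abs_self _))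
    linarith

/-- Adjacent bricks: two points of them have distance at most `2 δ`. (They have a common point.) -/
theorem brick_adj (hδ : 0 < δ) {u v : V} (h : Adj u v) {z w : Pt}
    (hz : z ∈ brick δ u) (hw : w ∈ brick δ v) : dist z w ≤ 2 * δ := by
  obtain ⟨a, b⟩ := u
  obtain ⟨a', b'⟩ := v
  rw [mem_brick] at hz hw
  obtain ⟨⟨z1, z2⟩, z3, z4⟩ := hz
  obtain ⟨⟨w1, w2⟩, w3, w4⟩ := hw
  simp only at z1 z2 z3 z4 w1 w2 w3 w4
  unfold Adj at h
  simp only at h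
  rcases h with ⟨h, h'⟩ | ⟨h, h'⟩ | ⟨h, h'⟩ | ⟨h, h'⟩ | ⟨h, h'⟩ | ⟨h, h'⟩ <;>
  · subst h
    subst h'
    push_cast at w1 w2 w3 w4
    refine dist_le_of ?_ ?_
    · rw [abs_le]
      constructor <;> linarith
    · rw [abs_le]
      constructor <;> linarith

end Pool.Agent.TameB
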