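import Pool.Agent.TameB.Vert

/-!
# TAMEB: pushing a rectangle into its neighbour
-/

set_option autoImplicit false

namespace Pool.Agent.TameB

open Set Topology Filter

/-- The support of the push to the left: it consists of the `η`-neighbourhood of `T` to the right of
`x₁ - η` and of the part of the `η`-neighbourhood of `S` in the columns `x₀ + η ≤ x ≤ x₁` and rows
`max y₁ Y₁ - η ≤ y ≤ min y₂ Y₂ + η`. -/
def pushSupp (x₀ x₁ x₂ y₁ y₂ Y₁ Y₂ η : ℝ) : Set Pt :=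
  {z | (x₁ - η < z.1 ∧ z.1 < x₂ + η ∧ y₁ - η < z.2 ∧ z.2 < y₂ + η) ∨
    (x₀ + η < z.1 ∧ z.1 < x₂ + η ∧ max y₁ Y₁ - η < z.2 ∧ z.2 < min y₂ Y₂ + η)}

/-- Push `T = [x₁, x₂] × [y₁, y₂]` to the left into `S = [x₀, x₁] × [Y₁, Y₂]`.
PROOF: `f = f₂ ∘ f₁`.  Let `m₁ = max y₁ Y₁ < m₂ = min y₂ Y₂`.
`f₁` is vertical (`exists_vert`) with the squeeze `P` (`exists_squeeze`) of nodes
`y₁ - η, y₁ ↦ m₁, y₂ ↦ m₂, y₂ + η` and the cut-off `1` on `[x₁, x₂]`, `0` off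
`(x₁ - η, x₂ + η)`.  It maps `T` into `[x₁, x₂] × [m₁, m₂]` and `S` into `S`, since `P` maps
`[Y₁, Y₂]` into itself: if `Y₁ ≤ y₁` then `m₁ = y₁` and `P` is the identity below `y₁`, so
`P y ≥ Y₁`; if `Y₁ > y₁` then `m₁ = Y₁` and `P y ≥ P y₁ = m₁` for `y ≥ Y₁`; the same above.
`f₂` is horizontal (`exists_horz`) with the bump of nodes `x₀ + η, x₂ ↦ x₁, x₂ + η`
(`exists_bump`) and the cut-off `1` on `[m₁, m₂]`, `0` off `(m₁ - η, m₂ + η)`.  It maps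
`[x₁, x₂] × [m₁, m₂]` into `[x₀ + η, x₁] × [m₁, m₂] ⊆ S` and `S` into `S` (it moves points to the
left, and fixes the points with `x ≤ x₀ + η`). -/
theorem exists_push_left {x₀ x₁ x₂ y₁ y₂ Y₁ Y₂ η : ℝ} (hη : 0 < η) (h0 : x₀ + η < x₁)
    (h1 : x₁ < x₂) (h2 : max y₁ Y₁ < min y₂ Y₂) :
    ∃ f : Pt ≃ₜ Pt, SuppIn f (pushSupp x₀ x₁ x₂ y₁ y₂ Y₁ Y₂ η) ∧
      (∀ z : Pt, x₁ ≤ z.1 → z.1 ≤ x₂ → y₁ ≤ z.2 → z.2 ≤ y₂ →
        (x₀ ≤ (f z).1 ∧ (f z).1 ≤ x₁ ∧ Y₁ ≤ (f z).2 ∧ (f z).2 ≤ Y₂)) ∧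
      ∀ z : Pt, x₀ ≤ z.1 → z.1 ≤ x₁ → Y₁ ≤ z.2 → z.2 ≤ Y₂ →
        (x₀ ≤ (f z).1 ∧ (f z).1 ≤ x₁ ∧ Y₁ ≤ (f z).2 ∧ (f z).2 ≤ Y₂) := by
  have hm1 : y₁ ≤ max y₁ Y₁ := le_max_left _ _
  have hM1 : Y₁ ≤ max y₁ Y₁ := le_max_right _ _
  have hm2 : min y₂ Y₂ ≤ y₂ := min_le_left _ _
  have hM2 : min y₂ Y₂ ≤ Y₂ := min_le_right _ _
  obtain ⟨P, hP, hPb, hPc, hPlow, hPhigh⟩ :=
    exists_squeeze (a := y₁ - η) (b := y₁) (b' := max y₁ Y₁) (c' := min y₂ Y₂) (c := y₂)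
      (d := y₂ + η) (by linarith) hm1 h2 hm2 (by linarith)
  obtain ⟨Q, hQ, hQb⟩ := exists_bump (a := x₀ + η) (b := x₂) (b' := x₁) (c := x₂ + η)
    (by linarith) (by linarith) h0 (by linarith)
  obtain ⟨τ, hτ, hτ0, hτ1, hτone, hτzero⟩ := exists_cut (x₁ := x₁) (x₂ := x₂) h1.le hη
  obtain ⟨σ, hσ, hσ0, hσ1, hσone, hσzero⟩ :=
    exists_cut (x₁ := max y₁ Y₁) (x₂ := min y₂ Y₂) h2.le hη
  obtain ⟨f₁, hf₁⟩ := exists_vert hP hτ hτ0 hτ1
  obtain ⟨f₂, hf₂⟩ := exists_horz hQ hσ hσ0 hσ1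
  refine ⟨f₁.trans f₂, ?_, ?_, ?_⟩
  · intro z hz
    have hz1 : f₁ z = z := by
      rw [hf₁ z]
      by_cases h : x₁ - η < z.1 ∧ z.1 < x₂ + η
      · have h' : ¬ (y₁ - η < z.2 ∧ z.2 < y₂ + η) := fun h'' => hz (Or.inl ⟨h.1, h.2, h''.1, h''.2⟩)
        have h3 : P z.2 = z.2 := by
          rcases not_and_or.1 h' with h4 | h4
          · exact hP.low _ (not_lt.1 h4)
          · exact hP.high _ (not_lt.1 h4)
        rw [h3, sub_self, mul_zero, add_zero]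
      · have h3 : τ z.1 = 0 := by
          refine hτzero _ ?_
          rcases not_and_or.1 h with h4 | h4
          · exact Or.inl (not_lt.1 h4)
          · exact Or.inr (not_lt.1 h4)
        rw [h3, zero_mul, add_zero]
    rw [Homeomorph.trans_apply, hz1, hf₂ z]
    by_cases h : max y₁ Y₁ - η < z.2 ∧ z.2 < min y₂ Y₂ + η
    · have h' : ¬ (x₀ + η < z.1 ∧ z.1 < x₂ + η) :=
        fun h'' => hz (Or.inr ⟨h''.1, h''.2, h.1, h.2⟩)
      have h3 : Q z.1 = z.1 := by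
        rcases not_and_or.1 h' with h4 | h4
        · exact hQ.low _ (not_lt.1 h4)
        · exact hQ.high _ (not_lt.1 h4)
      rw [h3, sub_self, mul_zero, add_zero]
    · have h3 : σ z.2 = 0 := by
        refine hσzero _ ?_
        rcases not_and_or.1 h with h4 | h4
        · exact Or.inl (not_lt.1 h4)
        · exact Or.inr (not_lt.1 h4)
      rw [h3, zero_mul, add_zero]
  · intro z hz1 hz2 hz3 hz4
    have hf1 : f₁ z = (z.1, P z.2) := by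
      rw [hf₁ z, hτone _ hz1 hz2, one_mul, add_sub_cancel]
    have h3 : max y₁ Y₁ ≤ P z.2 := hPb ▸ hP.mono.monotone hz3
    have h4 : P z.2 ≤ min y₂ Y₂ := hPc ▸ hP.mono.monotone hz4
    have hf2 : f₂ (z.1, P z.2) = (Q z.1, P z.2) := by
      rw [hf₂ (z.1, P z.2)]
      simp only
      rw [hσone _ h3 h4, one_mul, add_sub_cancel]
    rw [Homeomorph.trans_apply, hf1, hf2]
    refine ⟨?_, ?_, hM1.trans h3, h4.trans hM2⟩
    · have h5 : Q (x₀ + η) ≤ Q z.1 := hQ.mono.monotone (by linarith)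
      rw [hQ.low _ le_rfl] at h5
      exact le_trans (by linarith) h5
    · have h5 : Q z.1 ≤ Q x₂ := hQ.mono.monotone hz2
      rw [hQb] at h5
      exact h5
  · intro z hz1 hz2 hz3 hz4
    have hP1 : Y₁ ≤ P z.2 := by
      rcases le_total Y₁ y₁ with h | h
      · rcases le_total z.2 y₁ with h5 | h5
        · rw [hPlow (max_eq_left h).symm _ h5]
          exact hz3
        · have h6 : P y₁ ≤ P z.2 := hP.mono.monotone h5
          rw [hPb] at h6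
          exact hM1.trans h6
      · have h6 : P y₁ ≤ P z.2 := hP.mono.monotone (h.trans hz3)
        rw [hPb] at h6
        exact hM1.trans h6
    have hP2 : P z.2 ≤ Y₂ := by
      rcases le_total y₂ Y₂ with h | h
      · rcases le_total y₂ z.2 with h5 | h5
        · rw [hPhigh (min_eq_left h).symm _ h5]
          exact hz4
        · have h6 : P z.2 ≤ P y₂ := hP.mono.monotone h5
          rw [hPc] at h6
          exact h6.trans hM2
      · have h6 : P z.2 ≤ P y₂ := hP.mono.monotone (hz4.trans h)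
        rw [hPc] at h6
        exact h6.trans hM2
    have hy1 : Y₁ ≤ z.2 + τ z.1 * (P z.2 - z.2) := by
      nlinarith [hτ0 z.1, hτ1 z.1, mul_nonneg (hτ0 z.1) (sub_nonneg.2 hP1),
        mul_nonneg (sub_nonneg.2 (hτ1 z.1)) (sub_nonneg.2 hz3)]
    have hy2 : z.2 + τ z.1 * (P z.2 - z.2) ≤ Y₂ := by
      nlinarith [hτ0 z.1, hτ1 z.1, mul_nonneg (hτ0 z.1) (sub_nonneg.2 hP2),
        mul_nonneg (sub_nonneg.2 (hτ1 z.1)) (sub_nonneg.2 hz4)]
    have hQ1 : x₀ ≤ Q z.1 := by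
      rcases le_total z.1 (x₀ + η) with h | h
      · rw [hQ.low _ h]
        exact hz1
      · have h5 : Q (x₀ + η) ≤ Q z.1 := hQ.mono.monotone h
        rw [hQ.low _ le_rfl] at h5
        linarith
    have hQ2 : Q z.1 ≤ x₁ := by
      have h5 : Q z.1 ≤ Q x₂ := hQ.mono.monotone (hz2.trans h1.le)
      rw [hQb] at h5
      exact h5
    rw [Homeomorph.trans_apply, hf₁ z, hf₂]
    simp only
    refine ⟨?_, ?_, hy1, hy2⟩
    · nlinarith [mul_nonneg (hσ0 (z.2 + τ z.1 * (P z.2 - z.2))) (sub_nonneg.2 hQ1),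
        mul_nonneg (sub_nonneg.2 (hσ1 (z.2 + τ z.1 * (P z.2 - z.2)))) (sub_nonneg.2 hz1)]
    · nlinarith [mul_nonneg (hσ0 (z.2 + τ z.1 * (P z.2 - z.2))) (sub_nonneg.2 hQ2),
        mul_nonneg (sub_nonneg.2 (hσ1 (z.2 + τ z.1 * (P z.2 - z.2)))) (sub_nonneg.2 hz2)]

end Pool.Agent.TameB
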