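import Pool.Agent.TameB.PushR
import Pool.Agent.TameB.GridB

/-!
# TAMEB: pushing a leaf strip into its neighbour
-/

set_option autoImplicit false

namespace Pool.Agent.TameB

open Set Topology Filter Pool.Agent.TriPerc

private theorem pushLeaf_near1 {p q t η : ℝ} (h : p ≤ q) (hη : 0 < η) (h1 : p - η < t)
    (h2 : t < q + η) : ∃ s : ℝ, p ≤ s ∧ s ≤ q ∧ dist t s < η := by
  rcases lt_or_ge t p with h3 | h3
  · refine ⟨p, le_rfl, h, ?_⟩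
    rw [Real.dist_eq, abs_lt]
    constructor <;> linarith
  · rcases lt_or_ge q t with h4 | h4
    · refine ⟨q, h, le_rfl, ?_⟩
      rw [Real.dist_eq, abs_lt]
      constructor <;> linarith
    · exact ⟨t, h3, h4, by rw [dist_self]; exact hη⟩

private theorem pushLeaf_near {p q r s η : ℝ} (h : p ≤ q) (h' : r ≤ s) (hη : 0 < η) {z : Pt}
    (h1 : p - η < z.1) (h2 : z.1 < q + η) (h3 : r - η < z.2) (h4 : z.2 < s + η) :
    ∃ w : Pt, ((p ≤ w.1 ∧ w.1 ≤ q) ∧ r ≤ w.2 ∧ w.2 ≤ s) ∧ dist z w < η := by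
  obtain ⟨u, hu1, hu2, hu3⟩ := pushLeaf_near1 h hη h1 h2
  obtain ⟨v, hv1, hv2, hv3⟩ := pushLeaf_near1 h' hη h3 h4
  refine ⟨(u, v), ⟨⟨hu1, hu2⟩, hv1, hv2⟩, ?_⟩
  rw [Prod.dist_eq, max_lt_iff]
  exact ⟨hu3, hv3⟩

private theorem pushLeaf_core {δ η : ℝ} (hδ : 0 < δ) (hηδ : η < δ / 4) {B : Set V}
    {a c d a' c' d' : ℤ} (hS : IsStrip B a c d) (ha : a' ≠ a)
    (hN : ∀ x ∈ B, ∀ y ∈ seg a' c' d', x ∉ seg a' c' d' → Adj x y → x ∈ seg a c d)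
    (f : Pt ≃ₜ Pt) (P : Set Pt) (h1 : ∀ z, z ∉ P → f z = z)
    (h2 : ∀ z ∈ Reg δ (seg a' c' d'), f z ∈ Reg δ (seg a c d))
    (h3 : ∀ z ∈ Reg δ (seg a c d), f z ∈ Reg δ (seg a c d))
    (h4 : ∀ z ∈ P, z ∈ Nb η (Reg δ B))
    (h5 : ∀ z ∈ P, ∃ z' : Pt, (∀ v, z ∈ brick δ v → z' ∈ brick δ v) ∧
      ∃ w ∈ Reg δ (seg a' c' d'), dist z' w < η) :
    SuppIn f (Nb η (Reg δ B)) ∧ ∀ z ∈ Reg δ B, f z ∈ Reg δ (B \ seg a' c' d') := by
  have hsub : Reg δ (seg a c d) ⊆ Reg δ (B \ seg a' c' d') := by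
    rintro z ⟨v, hv, hz⟩
    exact ⟨v, ⟨hS.sub hv, fun hv' => ha (hv'.1.symm.trans hv.1)⟩, hz⟩
  refine ⟨fun z hz => h1 z fun hz' => hz (h4 z hz'), ?_⟩
  rintro z ⟨v, hv, hz⟩
  by_cases hvT : v ∈ seg a' c' d'
  · exact hsub (h2 z ⟨v, hvT, hz⟩)
  · by_cases hzP : z ∈ P
    · obtain ⟨z', hz', w, ⟨u, hu, hwu⟩, hd⟩ := h5 z hzP
      have hvu : v ≠ u := fun h => hvT (h ▸ hu)
      have hadj : Adj v u := by
        by_contra hna
        have := brick_dist hδ hvu hna (hz' v hz) hwu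
        linarith
      exact hsub (h3 z ⟨v, hN v hv u hu hvT hadj, hz⟩)
    · rw [h1 z hzP]
      exact ⟨v, ⟨hv, hvT⟩, hz⟩

private theorem pushLeaf_col {δ : ℝ} (hδ : 0 < δ) {v : V} {a : ℤ} {z : Pt} (hz : z ∈ brick δ v)
    (h1 : δ * a < z.1) (h2 : z.1 < δ * (a + 1)) : v.1 = a := by
  rw [mem_brick] at hz
  obtain ⟨⟨h3, h4⟩, -⟩ := hz
  have e1 : (v.1 : ℝ) < a + 1 := lt_of_mul_lt_mul_left (h3.trans_lt h2) hδ.le
  have e2 : (a : ℝ) < v.1 + 1 := lt_of_mul_lt_mul_left (h1.trans_le h4) hδ.le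
  have e3 : v.1 < a + 1 := by exact_mod_cast e1
  have e4 : a < v.1 + 1 := by exact_mod_cast e2
  omega

private theorem pushLeaf_left {δ η : ℝ} (hη : 0 < η) (hηδ : η < δ / 4) {B : Set V}
    {a c d c' d' : ℤ} (hS : IsStrip B a c d) (hT : IsStrip B (a + 1) c' d')
    (hN : ∀ x ∈ B, ∀ y ∈ seg (a + 1) c' d', x ∉ seg (a + 1) c' d' → Adj x y → x ∈ seg a c d)
    (hA : ∃ x ∈ seg a c d, ∃ y ∈ seg (a + 1) c' d', Adj x y) :
    ∃ f : Pt ≃ₜ Pt, SuppIn f (Nb η (Reg δ B)) ∧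
      ∀ z ∈ Reg δ B, f z ∈ Reg δ (B \ seg (a + 1) c' d') := by
  have hδ : 0 < δ := by linarith
  have hcd : (c : ℝ) ≤ d := by exact_mod_cast hS.le
  have hcd' : (c' : ℝ) ≤ d' := by exact_mod_cast hT.le
  obtain ⟨x, ⟨hx1, hx2, hx3⟩, y, ⟨hy1, hy2, hy3⟩, hxy⟩ := hA
  have k1 : c' ≤ d := by
    unfold Adj at hxy
    omega
  have k2 : c ≤ d' + 1 := by
    unfold Adj at hxy
    omega
  have k1' : (c' : ℝ) ≤ d := by exact_mod_cast k1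
  have k2' : (c : ℝ) ≤ d' + 1 := by exact_mod_cast k2
  have hm : max (δ * (c' + ((a : ℝ) + 1) / 2)) (δ * (c + (a : ℝ) / 2)) <
      min (δ * (d' + ((a : ℝ) + 1) / 2 + 1)) (δ * (d + (a : ℝ) / 2 + 1)) := by
    rw [max_lt_iff, lt_min_iff, lt_min_iff]
    refine ⟨⟨?_, ?_⟩, ?_, ?_⟩ <;> exact mul_lt_mul_of_pos_left (by linarith) hδ
  obtain ⟨f, hf1, hf2, hf3⟩ := exists_push_left (x₀ := δ * a) (x₁ := δ * (a + 1))
    (x₂ := δ * (a + 2)) hη (by linarith) (mul_lt_mul_of_pos_left (by linarith) hδ) hm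
  have mT : ∀ z : Pt, z ∈ Reg δ (seg (a + 1) c' d') ↔
      ((δ * ((a : ℝ) + 1) ≤ z.1 ∧ z.1 ≤ δ * (a + 2)) ∧
        δ * (c' + ((a : ℝ) + 1) / 2) ≤ z.2 ∧ z.2 ≤ δ * (d' + ((a : ℝ) + 1) / 2 + 1)) := by
    intro z
    rw [mem_reg_seg hδ hT.le]
    have e : (a : ℝ) + 1 + 1 = a + 2 := by ring
    push_cast
    rw [e]
  have mS : ∀ z : Pt, z ∈ Reg δ (seg a c d) ↔ _ := fun z => mem_reg_seg hδ hS.le
  have hTB : Reg δ (seg (a + 1) c' d') ⊆ Reg δ B := fun z ⟨v, hv, hz⟩ => ⟨v, hT.sub hv, hz⟩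
  have hSB : Reg δ (seg a c d) ⊆ Reg δ B := fun z ⟨v, hv, hz⟩ => ⟨v, hS.sub hv, hz⟩
  have hx12 : δ * ((a : ℝ) + 1) ≤ δ * (a + 2) := (mul_lt_mul_of_pos_left (by linarith) hδ).le
  have hx01 : δ * (a : ℝ) ≤ δ * (a + 1) := (mul_lt_mul_of_pos_left (by linarith) hδ).le
  have hy12 : δ * (c' + ((a : ℝ) + 1) / 2) ≤ δ * (d' + ((a : ℝ) + 1) / 2 + 1) :=
    (mul_lt_mul_of_pos_left (by linarith) hδ).le
  have hfirst : ∀ z : Pt, δ * ((a : ℝ) + 1) - η < z.1 → z.1 < δ * (a + 2) + η →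
      δ * (c' + ((a : ℝ) + 1) / 2) - η < z.2 → z.2 < δ * (d' + ((a : ℝ) + 1) / 2 + 1) + η →
      ∃ w ∈ Reg δ (seg (a + 1) c' d'), dist z w < η := by
    intro z g1 g2 g3 g4
    obtain ⟨w, hw, hd⟩ := pushLeaf_near hx12 hy12 hη g1 g2 g3 g4
    exact ⟨w, (mT w).mpr hw, hd⟩
  have l1 := le_max_left (δ * (c' + ((a : ℝ) + 1) / 2)) (δ * (c + (a : ℝ) / 2))
  have l2 := le_max_right (δ * (c' + ((a : ℝ) + 1) / 2)) (δ * (c + (a : ℝ) / 2))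
  have l3 := min_le_left (δ * (d' + ((a : ℝ) + 1) / 2 + 1)) (δ * (d + (a : ℝ) / 2 + 1))
  have l4 := min_le_right (δ * (d' + ((a : ℝ) + 1) / 2 + 1)) (δ * (d + (a : ℝ) / 2 + 1))
  refine ⟨f, pushLeaf_core hδ hηδ hS (by omega) hN f _ hf1 ?_ ?_ ?_ ?_⟩
  · intro z hz
    obtain ⟨⟨g1, g2⟩, g3, g4⟩ := (mT z).mp hz
    obtain ⟨q1, q2, q3, q4⟩ := hf2 z g1 g2 g3 g4
    exact (mS (f z)).mpr ⟨⟨q1, q2⟩, q3, q4⟩
  · intro z hz
    obtain ⟨⟨g1, g2⟩, g3, g4⟩ := (mS z).mp hz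
    obtain ⟨q1, q2, q3, q4⟩ := hf3 z g1 g2 g3 g4
    exact (mS (f z)).mpr ⟨⟨q1, q2⟩, q3, q4⟩
  · rintro z (⟨g1, g2, g3, g4⟩ | ⟨g1, g2, g3, g4⟩)
    · obtain ⟨w, hw, hd⟩ := hfirst z g1 g2 g3 g4
      exact ⟨w, hTB hw, hd⟩
    · rcases lt_or_ge (δ * ((a : ℝ) + 1) - η) z.1 with g5 | g5
      · obtain ⟨w, hw, hd⟩ := hfirst z g5 g2 (by linarith) (by linarith)
        exact ⟨w, hTB hw, hd⟩
      · obtain ⟨w, ⟨⟨w1, w2⟩, w3, w4⟩, hd⟩ := pushLeaf_near (p := δ * (a : ℝ))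
          (q := δ * (a + 1)) hx01 hm.le hη (z := z) (by linarith) (by linarith) g3 g4
        exact ⟨w, hSB ((mS w).mpr ⟨⟨w1, w2⟩, by linarith, by linarith⟩), hd⟩
  · rintro z (⟨g1, g2, g3, g4⟩ | ⟨g1, g2, g3, g4⟩)
    · exact ⟨z, fun v hv => hv, hfirst z g1 g2 g3 g4⟩
    · rcases lt_or_ge (δ * ((a : ℝ) + 1) - η) z.1 with g5 | g5
      · exact ⟨z, fun v hv => hv, hfirst z g5 g2 (by linarith) (by linarith)⟩
      · refine ⟨(δ * ((a : ℝ) + 1), z.2), ?_, ?_⟩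
        · intro v hv
          have hv1 : v.1 = a := pushLeaf_col hδ hv (by linarith) (by linarith)
          rw [mem_brick] at hv ⊢
          rw [hv1] at hv ⊢
          exact ⟨⟨hx01, le_rfl⟩, hv.2⟩
        · exact hfirst _ (by show _ < δ * ((a : ℝ) + 1); linarith)
            (by show δ * ((a : ℝ) + 1) < _; linarith)
            (by show _ < z.2; linarith) (by show z.2 < _; linarith)

private theorem pushLeaf_right {δ η : ℝ} (hη : 0 < η) (hηδ : η < δ / 4) {B : Set V}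
    {a c d c' d' : ℤ} (hS : IsStrip B a c d) (hT : IsStrip B (a - 1) c' d')
    (hN : ∀ x ∈ B, ∀ y ∈ seg (a - 1) c' d', x ∉ seg (a - 1) c' d' → Adj x y → x ∈ seg a c d)
    (hA : ∃ x ∈ seg a c d, ∃ y ∈ seg (a - 1) c' d', Adj x y) :
    ∃ f : Pt ≃ₜ Pt, SuppIn f (Nb η (Reg δ B)) ∧
      ∀ z ∈ Reg δ B, f z ∈ Reg δ (B \ seg (a - 1) c' d') := by
  have hδ : 0 < δ := by linarith
  have hcd : (c : ℝ) ≤ d := by exact_mod_cast hS.le
  have hcd' : (c' : ℝ) ≤ d' := by exact_mod_cast hT.le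
  obtain ⟨x, ⟨hx1, hx2, hx3⟩, y, ⟨hy1, hy2, hy3⟩, hxy⟩ := hA
  have k1 : c' ≤ d + 1 := by
    unfold Adj at hxy
    omega
  have k2 : c ≤ d' := by
    unfold Adj at hxy
    omega
  have k1' : (c' : ℝ) ≤ d + 1 := by exact_mod_cast k1
  have k2' : (c : ℝ) ≤ d' := by exact_mod_cast k2
  have hm : max (δ * (c' + ((a : ℝ) - 1) / 2)) (δ * (c + (a : ℝ) / 2)) <
      min (δ * (d' + ((a : ℝ) - 1) / 2 + 1)) (δ * (d + (a : ℝ) / 2 + 1)) := by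
    rw [max_lt_iff, lt_min_iff, lt_min_iff]
    refine ⟨⟨?_, ?_⟩, ?_, ?_⟩ <;> exact mul_lt_mul_of_pos_left (by linarith) hδ
  obtain ⟨f, hf1, hf2, hf3⟩ := exists_push_right (x₀ := -(δ * (a + 1))) (x₁ := -(δ * a))
    (x₂ := -(δ * (a - 1))) hη (by linarith)
    (neg_lt_neg (mul_lt_mul_of_pos_left (by linarith) hδ)) hm
  simp only [neg_neg] at hf2 hf3
  have mT : ∀ z : Pt, z ∈ Reg δ (seg (a - 1) c' d') ↔
      ((δ * ((a : ℝ) - 1) ≤ z.1 ∧ z.1 ≤ δ * a) ∧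
        δ * (c' + ((a : ℝ) - 1) / 2) ≤ z.2 ∧ z.2 ≤ δ * (d' + ((a : ℝ) - 1) / 2 + 1)) := by
    intro z
    rw [mem_reg_seg hδ hT.le]
    have e : (a : ℝ) - 1 + 1 = a := by ring
    push_cast
    rw [e]
  have mS : ∀ z : Pt, z ∈ Reg δ (seg a c d) ↔ _ := fun z => mem_reg_seg hδ hS.le
  have hTB : Reg δ (seg (a - 1) c' d') ⊆ Reg δ B := fun z ⟨v, hv, hz⟩ => ⟨v, hT.sub hv, hz⟩
  have hSB : Reg δ (seg a c d) ⊆ Reg δ B := fun z ⟨v, hv, hz⟩ => ⟨v, hS.sub hv, hz⟩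
  have hx12 : δ * ((a : ℝ) - 1) ≤ δ * a := (mul_lt_mul_of_pos_left (by linarith) hδ).le
  have hx01 : δ * (a : ℝ) ≤ δ * (a + 1) := (mul_lt_mul_of_pos_left (by linarith) hδ).le
  have hy12 : δ * (c' + ((a : ℝ) - 1) / 2) ≤ δ * (d' + ((a : ℝ) - 1) / 2 + 1) :=
    (mul_lt_mul_of_pos_left (by linarith) hδ).le
  have hfirst : ∀ z : Pt, δ * ((a : ℝ) - 1) - η < z.1 → z.1 < δ * a + η →
      δ * (c' + ((a : ℝ) - 1) / 2) - η < z.2 → z.2 < δ * (d' + ((a : ℝ) - 1) / 2 + 1) + η →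
      ∃ w ∈ Reg δ (seg (a - 1) c' d'), dist z w < η := by
    intro z g1 g2 g3 g4
    obtain ⟨w, hw, hd⟩ := pushLeaf_near hx12 hy12 hη g1 g2 g3 g4
    exact ⟨w, (mT w).mpr hw, hd⟩
  have l1 := le_max_left (δ * (c' + ((a : ℝ) - 1) / 2)) (δ * (c + (a : ℝ) / 2))
  have l2 := le_max_right (δ * (c' + ((a : ℝ) - 1) / 2)) (δ * (c + (a : ℝ) / 2))
  have l3 := min_le_left (δ * (d' + ((a : ℝ) - 1) / 2 + 1)) (δ * (d + (a : ℝ) / 2 + 1))
  have l4 := min_le_right (δ * (d' + ((a : ℝ) - 1) / 2 + 1)) (δ * (d + (a : ℝ) / 2 + 1))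
  refine ⟨f, pushLeaf_core hδ hηδ hS (by omega) hN f
    {z | ((-z.1, z.2) : Pt) ∈ pushSupp (-(δ * (a + 1))) (-(δ * a)) (-(δ * (a - 1)))
      (δ * (c' + ((a : ℝ) - 1) / 2)) (δ * (d' + ((a : ℝ) - 1) / 2 + 1))
      (δ * (c + (a : ℝ) / 2)) (δ * (d + (a : ℝ) / 2 + 1)) η} (fun z hz => hf1 z hz) ?_ ?_ ?_ ?_⟩
  · intro z hz
    obtain ⟨⟨g1, g2⟩, g3, g4⟩ := (mT z).mp hz
    obtain ⟨q1, q2, q3, q4⟩ := hf2 z g1 g2 g3 g4
    exact (mS (f z)).mpr ⟨⟨q1, q2⟩, q3, q4⟩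
  · intro z hz
    obtain ⟨⟨g1, g2⟩, g3, g4⟩ := (mS z).mp hz
    obtain ⟨q1, q2, q3, q4⟩ := hf3 z g1 g2 g3 g4
    exact (mS (f z)).mpr ⟨⟨q1, q2⟩, q3, q4⟩
  · rintro z (⟨g1, g2, g3, g4⟩ | ⟨g1, g2, g3, g4⟩)
    · simp only at g1 g2 g3 g4
      obtain ⟨w, hw, hd⟩ := hfirst z (by linarith) (by linarith) g3 g4
      exact ⟨w, hTB hw, hd⟩
    · simp only at g1 g2 g3 g4
      rcases lt_or_ge z.1 (δ * (a : ℝ) + η) with g5 | g5
      · obtain ⟨w, hw, hd⟩ := hfirst z (by linarith) g5 (by linarith) (by linarith)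
        exact ⟨w, hTB hw, hd⟩
      · obtain ⟨w, ⟨⟨w1, w2⟩, w3, w4⟩, hd⟩ := pushLeaf_near (p := δ * (a : ℝ))
          (q := δ * (a + 1)) hx01 hm.le hη (z := z) (by linarith) (by linarith) g3 g4
        exact ⟨w, hSB ((mS w).mpr ⟨⟨w1, w2⟩, by linarith, by linarith⟩), hd⟩
  · rintro z (⟨g1, g2, g3, g4⟩ | ⟨g1, g2, g3, g4⟩)
    · simp only at g1 g2 g3 g4
      exact ⟨z, fun v hv => hv, hfirst z (by linarith) (by linarith) g3 g4⟩
    · simp only at g1 g2 g3 g4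
      rcases lt_or_ge z.1 (δ * (a : ℝ) + η) with g5 | g5
      · exact ⟨z, fun v hv => hv, hfirst z (by linarith) g5 (by linarith) (by linarith)⟩
      · refine ⟨(δ * (a : ℝ), z.2), ?_, ?_⟩
        · intro v hv
          have hv1 : v.1 = a := pushLeaf_col hδ hv (by linarith) (by linarith)
          rw [mem_brick] at hv ⊢
          rw [hv1] at hv ⊢
          exact ⟨⟨le_rfl, hx01⟩, hv.2⟩
        · exact hfirst _ (by show _ < δ * (a : ℝ); linarith)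
            (by show δ * (a : ℝ) < _; linarith)
            (by show _ < z.2; linarith) (by show z.2 < _; linarith)

/-- Push a leaf strip `T` into its neighbour `S`.  PROOF: `mem_reg_seg` for both strips; the case
`a' = a + 1` is `exists_push_left` with `x₀ = δ a`, `x₁ = δ (a + 1)`, `x₂ = δ (a + 2)` and the
`y`-ranges of the two strips, which overlap in an interval of positive length, because
they are adjacent; the case `a' = a - 1` is `exists_push_right`.  The points of the support are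
in the `η`-neighbourhood of `T ∪ S`. A point `z` of a brick `v` of `B \ T` which is moved is in `S`:
if `z` is within `η` of a point of `T` then `v` is equal or adjacent to a brick of `T`
(`brick_dist`, `η < δ / 2`), so `v ∈ S`.  A point of the second part of the support with
`z.1 ≤ x₁` has `y`-distance `< η` from the `y`-range of `T`; if `v` is in column `a` then
the point of `v` with the same `y` and `x = x₁` is within `η` of `T`: `v ∈ S` again; if `v` is not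
in column `a` then `z.1 = x₁` and `z` itself is within `η` of `T`. -/
theorem exists_push_leaf {δ η : ℝ} (hη : 0 < η) (hηδ : η < δ / 4) {B : Set V}
    {a c d a' c' d' : ℤ} (hS : IsStrip B a c d) (hT : IsStrip B a' c' d')
    (ha : a' = a + 1 ∨ a' = a - 1)
    (hN : ∀ x ∈ B, ∀ y ∈ seg a' c' d', x ∉ seg a' c' d' → Adj x y → x ∈ seg a c d)
    (hA : ∃ x ∈ seg a c d, ∃ y ∈ seg a' c' d', Adj x y) :
    ∃ f : Pt ≃ₜ Pt, SuppIn f (Nb η (Reg δ B)) ∧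
      ∀ z ∈ Reg δ B, f z ∈ Reg δ (B \ seg a' c' d') := by
  rcases ha with rfl | rfl
  · exact pushLeaf_left hη hηδ hS hT hN hA
  · exact pushLeaf_right hη hηδ hS hT hN hA

end Pool.Agent.TameB
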