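import Pool.Agent.TameB.Push

/-!
# TAMEB: pushing to the right, squeezing a rectangle
-/

set_option autoImplicit false

namespace Pool.Agent.TameB

open Set Topology Filter

/-- Push `T = [-x₂, -x₁] × [y₁, y₂]` to the right into `S = [-x₁, -x₀] × [Y₁, Y₂]`.
PROOF: conjugate `exists_push_left` with `(x, y) ↦ (-x, y)`. -/
theorem exists_push_right {x₀ x₁ x₂ y₁ y₂ Y₁ Y₂ η : ℝ} (hη : 0 < η) (h0 : x₀ + η < x₁)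
    (h1 : x₁ < x₂) (h2 : max y₁ Y₁ < min y₂ Y₂) :
    ∃ f : Pt ≃ₜ Pt, (∀ z : Pt, (-z.1, z.2) ∉ pushSupp x₀ x₁ x₂ y₁ y₂ Y₁ Y₂ η → f z = z) ∧
      (∀ z : Pt, -x₂ ≤ z.1 → z.1 ≤ -x₁ → y₁ ≤ z.2 → z.2 ≤ y₂ →
        (-x₁ ≤ (f z).1 ∧ (f z).1 ≤ -x₀ ∧ Y₁ ≤ (f z).2 ∧ (f z).2 ≤ Y₂)) ∧
      ∀ z : Pt, -x₁ ≤ z.1 → z.1 ≤ -x₀ → Y₁ ≤ z.2 → z.2 ≤ Y₂ →
        (-x₁ ≤ (f z).1 ∧ (f z).1 ≤ -x₀ ∧ Y₁ ≤ (f z).2 ∧ (f z).2 ≤ Y₂) := by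
  obtain ⟨f, hf, hT, hS⟩ := exists_push_left hη h0 h1 h2
  have key : ∀ z : Pt, (((Homeomorph.neg ℝ).prodCongr (Homeomorph.refl ℝ)).trans
      (f.trans ((Homeomorph.neg ℝ).prodCongr (Homeomorph.refl ℝ)))) z =
      (-(f (-z.1, z.2)).1, (f (-z.1, z.2)).2) := fun z => rfl
  refine ⟨((Homeomorph.neg ℝ).prodCongr (Homeomorph.refl ℝ)).trans
      (f.trans ((Homeomorph.neg ℝ).prodCongr (Homeomorph.refl ℝ))), ?_, ?_, ?_⟩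
  · intro z hz
    rw [key z, hf _ hz]
    simp
  · intro z hz1 hz2 hz3 hz4
    rw [key z]
    obtain ⟨k1, k2, k3, k4⟩ := hT (-z.1, z.2) (by simp only; linarith) (by simp only; linarith)
      hz3 hz4
    exact ⟨neg_le_neg k2, neg_le_neg k1, k3, k4⟩
  · intro z hz1 hz2 hz3 hz4
    rw [key z]
    obtain ⟨k1, k2, k3, k4⟩ := hS (-z.1, z.2) (by simp only; linarith) (by simp only; linarith)
      hz3 hz4
    exact ⟨neg_le_neg k2, neg_le_neg k1, k3, k4⟩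

/-- Squeeze a rectangle into a smaller one.  PROOF: a vertical and a horizontal homeomorphism
(`exists_squeeze`, `exists_cut`, `exists_vert`, `exists_horz`). -/
theorem exists_squeeze_rect {x₁ x₂ y₁ y₂ a₁ a₂ b₁ b₂ η : ℝ} (hη : 0 < η) (h1 : x₁ ≤ a₁)
    (h2 : a₁ < a₂) (h3 : a₂ ≤ x₂) (h4 : y₁ ≤ b₁) (h5 : b₁ < b₂) (h6 : b₂ ≤ y₂) :
    ∃ f : Pt ≃ₜ Pt,
      SuppIn f {z | x₁ - η < z.1 ∧ z.1 < x₂ + η ∧ y₁ - η < z.2 ∧ z.2 < y₂ + η} ∧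
      ∀ z : Pt, x₁ ≤ z.1 → z.1 ≤ x₂ → y₁ ≤ z.2 → z.2 ≤ y₂ →
        (a₁ ≤ (f z).1 ∧ (f z).1 ≤ a₂ ∧ b₁ ≤ (f z).2 ∧ (f z).2 ≤ b₂) := by
  obtain ⟨P, hP, hPb, hPc, -, -⟩ :=
    exists_squeeze (a := y₁ - η) (b := y₁) (b' := b₁) (c' := b₂) (c := y₂)
      (d := y₂ + η) (by linarith) h4 h5 h6 (by linarith)
  obtain ⟨Q, hQ, hQb, hQc, -, -⟩ :=
    exists_squeeze (a := x₁ - η) (b := x₁) (b' := a₁) (c' := a₂) (c := x₂)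
      (d := x₂ + η) (by linarith) h1 h2 h3 (by linarith)
  obtain ⟨τ, hτ, hτ0, hτ1, hτone, hτzero⟩ :=
    exists_cut (x₁ := x₁) (x₂ := x₂) (h1.trans (h2.le.trans h3)) hη
  obtain ⟨σ, hσ, hσ0, hσ1, hσone, hσzero⟩ :=
    exists_cut (x₁ := y₁) (x₂ := y₂) (h4.trans (h5.le.trans h6)) hη
  obtain ⟨f₁, hf₁⟩ := exists_vert hP hτ hτ0 hτ1
  obtain ⟨f₂, hf₂⟩ := exists_horz hQ hσ hσ0 hσ1
  refine ⟨f₁.trans f₂, ?_, ?_⟩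
  · intro z hz
    have hPτ : τ z.1 = 0 ∧ Q z.1 = z.1 ∨ P z.2 = z.2 ∧ σ z.2 = 0 := by
      by_cases h : x₁ - η < z.1 ∧ z.1 < x₂ + η
      · have h' : ¬ (y₁ - η < z.2 ∧ z.2 < y₂ + η) := fun h'' => hz ⟨h.1, h.2, h''.1, h''.2⟩
        right
        rcases not_and_or.1 h' with h7 | h7
        · exact ⟨hP.low _ (not_lt.1 h7), hσzero _ (Or.inl (not_lt.1 h7))⟩
        · exact ⟨hP.high _ (not_lt.1 h7), hσzero _ (Or.inr (not_lt.1 h7))⟩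
      · left
        rcases not_and_or.1 h with h7 | h7
        · exact ⟨hτzero _ (Or.inl (not_lt.1 h7)), hQ.low _ (not_lt.1 h7)⟩
        · exact ⟨hτzero _ (Or.inr (not_lt.1 h7)), hQ.high _ (not_lt.1 h7)⟩
    rw [Homeomorph.trans_apply]
    rcases hPτ with ⟨e1, e2⟩ | ⟨e1, e2⟩
    · rw [hf₁ z, e1, zero_mul, add_zero, hf₂ z, e2, sub_self, mul_zero, add_zero]
    · rw [hf₁ z, e1, sub_self, mul_zero, add_zero, hf₂ z, e2, zero_mul, add_zero]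
  · intro z hz1 hz2 hz3 hz4
    have hf1 : f₁ z = (z.1, P z.2) := by
      rw [hf₁ z, hτone _ hz1 hz2, one_mul, add_sub_cancel]
    have k3 : b₁ ≤ P z.2 := hPb ▸ hP.mono.monotone hz3
    have k4 : P z.2 ≤ b₂ := hPc ▸ hP.mono.monotone hz4
    have k1 : a₁ ≤ Q z.1 := hQb ▸ hQ.mono.monotone hz1
    have k2 : Q z.1 ≤ a₂ := hQc ▸ hQ.mono.monotone hz2
    have hf2 : f₂ (z.1, P z.2) = (Q z.1, P z.2) := by
      rw [hf₂ (z.1, P z.2)]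
      simp only
      rw [hσone _ (h4.trans k3) (k4.trans h6), one_mul, add_sub_cancel]
    rw [Homeomorph.trans_apply, hf1, hf2]
    exact ⟨k1, k2, k3, k4⟩

end Pool.Agent.TameB
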