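import Pool.Agent.TameB.Strip

/-!
# TAMEB: how a component is attached to a strip
-/

set_option autoImplicit false

namespace Pool.Agent.TameB

open Set Topology Filter Pool.Agent.TriPerc

private theorem Sides_chi (z x y : V) :
    chi z x y = 1 ∧ (Crs z x y ∨ Crs z y x) ∨ chi z x y = 0 ∧ ¬ (Crs z x y ∨ Crs z y x) := by
  classical
  unfold chi
  by_cases h : Crs z x y ∨ Crs z y x
  · exact Or.inl ⟨if_pos h, h⟩
  · exact Or.inr ⟨if_neg h, h⟩

private theorem Sides_eq {z z' x y : V} {s t : ZMod 2} (h : chi z x y + chi z' x y = s + t) :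
    s = t ↔ ((Crs z x y ∨ Crs z y x) ↔ (Crs z' x y ∨ Crs z' y x)) := by
  have k1 : ∀ s t : ZMod 2, 1 + 1 = s + t → s = t := by decide
  have k2 : ∀ s t : ZMod 2, 1 + 0 = s + t → s ≠ t := by decide
  have k3 : ∀ s t : ZMod 2, 0 + 1 = s + t → s ≠ t := by decide
  have k4 : ∀ s t : ZMod 2, 0 + 0 = s + t → s = t := by decide
  rcases Sides_chi z x y with ⟨h1, h2⟩ | ⟨h1, h2⟩ <;>
    rcases Sides_chi z' x y with ⟨h3, h4⟩ | ⟨h3, h4⟩ <;> rw [h1, h3] at h
  · exact iff_of_true (k1 s t h) (iff_of_true h2 h4)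
  · exact iff_of_false (k2 s t h) fun h5 => h4 (h5.1 h2)
  · exact iff_of_false (k3 s t h) fun h5 => h2 (h5.2 h4)
  · exact iff_of_true (k4 s t h) (iff_of_false h2 h4)

private theorem Sides_add {p q : Prop} [Decidable p] [Decidable q] (s t : ZMod 2) :
    s + (if p then 1 else 0) = t + (if q then 1 else 0) ↔ (s = t ↔ (p ↔ q)) := by
  have k1 : ∀ s t : ZMod 2, s + 1 = t + 0 ↔ ¬ s = t := by decide
  have k2 : ∀ s t : ZMod 2, s + 0 = t + 1 ↔ ¬ s = t := by decide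
  by_cases hp : p <;> by_cases hq : q <;> simp only [hp, hq, if_true, if_false, add_left_inj,
    iff_true, iff_false, not_true_eq_false, k1, k2]

private theorem Sides_off {B : Set V} {a b : ℤ} (h : (a, b) ∉ B) {x : V} (hx : x ∈ B) :
    ¬ (x.1 = a ∧ x.2 = b) := by
  rintro ⟨rfl, rfl⟩
  exact h hx

private theorem Sides_crs0 {z x y : V} (h : y.1 = x.1) : ¬ (Crs z x y ∨ Crs z y x) := by
  unfold Crs
  omega

private theorem Sides_crs1 {z x y : V} (h : y.1 = x.1 + 1) :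
    (Crs z x y ∨ Crs z y x) ↔ (x.1 = z.1 ∧ z.2 < x.2) := by
  unfold Crs
  omega

private theorem Sides_swap {P Q R S T : Prop} (h : (P ↔ (Q ↔ R)) ↔ ¬ (S ∨ T)) :
    (P ↔ (R ↔ Q)) ↔ ¬ (T ∨ S) := by
  rw [iff_comm (a := R), or_comm]
  exact h

private theorem Sides_col {x y : V} (h : Adj x y) : (y.1 = x.1 ∧ (y.2 = x.2 + 1 ∨ y.2 = x.2 - 1)) ∨
    (y.1 = x.1 + 1 ∧ (y.2 = x.2 ∨ y.2 = x.2 - 1)) ∨
      (x.1 = y.1 + 1 ∧ (x.2 = y.2 ∨ x.2 = y.2 - 1)) := by
  unfold Adj at h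
  omega

/-- the case of an edge from column `x.1` to column `x.1 + 1`, right side -/
private theorem Sides_right {a c d m : ℤ} (hcm : c ≤ m) (hmd : m < d) {x y : V}
    (h1 : y.1 = x.1 + 1) (h2 : y.2 = x.2 ∨ y.2 = x.2 - 1)
    (hx1 : ¬ (x.1 = a ∧ x.2 = d + 1)) (hy2 : ¬ (y.1 = a + 1 ∧ y.2 = m)) :
    (((x.1 = a ∧ d + 1 < x.2) ↔ (x.1 = a + 1 ∧ m < x.2)) ↔
      ((x.1 = a + 1 ∧ m < x.2) ↔ (y.1 = a + 1 ∧ m < y.2))) ↔
      ¬ ((x.1 = a ∧ c ≤ x.2 ∧ x.2 ≤ d) ∧ (y.1 = a + 1 ∧ m < y.2) ∨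
        (y.1 = a ∧ c ≤ y.2 ∧ y.2 ≤ d) ∧ (x.1 = a + 1 ∧ m < x.2)) := by
  rw [h1] at hy2 ⊢
  by_cases e1 : x.1 = a
  · have e2 : ¬ (a = a + 1) := by omega
    have e3 : ¬ (a + 1 = a) := by omega
    have e4 : ¬ x.2 = d + 1 := fun h => hx1 ⟨e1, h⟩
    have e5 : ¬ y.2 = m := fun h => hy2 ⟨by rw [e1], h⟩
    simp only [e1, e2, e3, true_and, false_and, and_false, or_false, iff_false, false_iff]
    clear hx1 hy2
    omega
  · by_cases e2 : x.1 = a + 1
    · have e3 : ¬ (a + 1 = a) := by omega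
      have e4 : ¬ (a + 1 + 1 = a + 1) := by omega
      have e5 : ¬ (a + 1 + 1 = a) := by omega
      simp only [e2, e3, e4, e5, false_and, or_false, iff_false, false_iff, not_false_eq_true]
    · have e3 : ¬ (x.1 + 1 = a + 1) := by omega
      simp only [e1, e2, e3, false_and, and_false, or_false, not_false_eq_true]

/-- the case of an edge from column `x.1` to column `x.1 + 1`, left side -/
private theorem Sides_left {a c d m : ℤ} (hcm : c < m) (hmd : m ≤ d) {x y : V}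
    (h1 : y.1 = x.1 + 1) (h2 : y.2 = x.2 ∨ y.2 = x.2 - 1)
    (hx2 : ¬ (x.1 = a - 1 ∧ x.2 = m)) (hx1 : ¬ (y.1 = a ∧ y.2 = d + 1)) :
    (((x.1 = a ∧ d + 1 < x.2) ↔ (x.1 = a - 1 ∧ m < x.2)) ↔
      ((x.1 = a ∧ d + 1 < x.2) ↔ (y.1 = a ∧ d + 1 < y.2))) ↔
      ¬ ((x.1 = a ∧ c ≤ x.2 ∧ x.2 ≤ d) ∧ (y.1 = a - 1 ∧ m < y.2) ∨
        (y.1 = a ∧ c ≤ y.2 ∧ y.2 ≤ d) ∧ (x.1 = a - 1 ∧ m < x.2)) := by
  rw [h1] at hx1 ⊢
  by_cases e1 : x.1 = a
  · have e2 : ¬ (a = a - 1) := by omega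
    have e3 : ¬ (a + 1 = a) := by omega
    have e4 : ¬ (a + 1 = a - 1) := by omega
    simp only [e1, e2, e3, e4, true_and, false_and, and_false, or_false, iff_false,
      not_false_eq_true]
  · by_cases e2 : x.1 = a - 1
    · have e3 : ¬ (a - 1 = a) := by omega
      have e4 : a - 1 + 1 = a := by omega
      have e5 : ¬ (a = a - 1) := by omega
      have e6 : ¬ y.2 = d + 1 := fun h => hx1 ⟨by rw [e2, e4], h⟩
      have e7 : ¬ x.2 = m := fun h => hx2 ⟨e2, h⟩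
      simp only [e2, e3, e4, e5, true_and, false_and, and_false, false_or, false_iff]
      clear hx1 hx2
      omega
    · have e3 : ¬ (x.1 + 1 = a) := by omega
      simp only [e1, e2, e3, false_and, and_false, or_false, not_false_eq_true]

/-- Opposite sides are not joined off the strip.  PROOF: `chi_path` for `z = (a, d + 1)`,
`z' = (a, c - 1)`: `chi z + chi z'` is `1` exactly for the edges from the strip (or from
`(a, d + 1)`, not in `B`) to column `a + 1`; `no_cycle` with `U` = column `a + 1`. -/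
theorem not_opposite {B : Set V} (hB : IsAnimal B) {a c d : ℤ} (h : IsStrip B a c d) {u v s t : V}
    (huv : Conn (B \ seg a c d) u v) (hs : s ∈ seg a c d) (ht : t ∈ seg a c d)
    (hus : Adj u s) (hvt : Adj v t) (hu : u.1 = a - 1) (hv : v.1 = a + 1) : False := by
  obtain ⟨g, hg⟩ := chi_path (B := B) (hB.coconn (a, d + 1) h.up (a, c - 1) h.down)
  have hcd := h.le
  have key1 : ∀ x ∈ B, ∀ y ∈ B, y.1 = x.1 + 1 →
      ((Crs (a, d + 1) x y ∨ Crs (a, d + 1) y x) ↔ (Crs (a, c - 1) x y ∨ Crs (a, c - 1) y x)) →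
      ¬ (x.1 = a ∧ c ≤ x.2 ∧ x.2 ≤ d) := by
    intro x hx y hy hxy h3
    rw [Sides_crs1 hxy, Sides_crs1 hxy] at h3
    simp only at h3
    omega
  have key2 : ∀ x ∈ B, ∀ y ∈ B, y.1 = x.1 + 1 → ¬ (x.1 = a ∧ c ≤ x.2 ∧ x.2 ≤ d) →
      ((Crs (a, d + 1) x y ∨ Crs (a, d + 1) y x) ↔ (Crs (a, c - 1) x y ∨ Crs (a, c - 1) y x)) := by
    intro x hx y hy hxy h3
    have h1 := Sides_off h.up hx
    rw [Sides_crs1 hxy, Sides_crs1 hxy]
    simp only
    omega
  have key : ∀ x ∈ B, ∀ y ∈ B, Adj x y → (g x = g y ↔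
      ¬ ((x.1 = a ∧ c ≤ x.2 ∧ x.2 ≤ d) ∧ y.1 = a + 1 ∨
        (y.1 = a ∧ c ≤ y.2 ∧ y.2 ≤ d) ∧ x.1 = a + 1)) := by
    intro x hx y hy hxy
    rw [Sides_eq (hg x hx y hy hxy)]
    rcases Sides_col hxy with h3 | h3 | h3
    · refine iff_of_true (iff_of_false (Sides_crs0 h3.1) (Sides_crs0 h3.1)) ?_
      omega
    · constructor
      · intro h4
        have h5 := key1 x hx y hy h3.1 h4
        omega
      · intro h4
        refine key2 x hx y hy h3.1 fun h5 => h4 (Or.inl ⟨h5, ?_⟩)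
        rw [h3.1, h5.1]
    · rw [or_comm (a := Crs (a, d + 1) x y), or_comm (a := Crs (a, c - 1) x y)]
      constructor
      · intro h4
        have h5 := key1 y hy x hx h3.1 h4
        omega
      · intro h4
        refine key2 y hy x hx h3.1 fun h5 => h4 (Or.inr ⟨h5, ?_⟩)
        rw [h3.1, h5.1]
  refine no_cycle (isConn_seg a c d) h.sub g (U := {w | w.1 = a + 1}) ?_ ?_ ?_ huv ?_ hv hs ht
    hus hvt
  · intro x hx y hy hxy hxS
    by_cases h3 : g x = g y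
    · left
      rw [h3]
      exact CharTwo.add_self_eq_zero _
    · right
      have h4 := mt (key x hx y hy hxy).2 h3
      rw [not_not] at h4
      rcases h4 with h4 | h4
      · exact absurd h4.1 hxS
      · exact ⟨h4.2, h4.1⟩
  · intro x hx y hy hxy
    refine (key x (h.sub hx) y (h.sub hy) hxy).2 ?_
    have h3 : x.1 = a := hx.1
    have h4 : y.1 = a := hy.1
    omega
  · intro x hx hxU y hy hxy h3
    exact (key x hx y (h.sub hy) hxy).1 h3 (Or.inr ⟨hy, hxU⟩)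
  · intro h3
    have h4 : u.1 = a + 1 := h3
    omega

/-- Both on the right side: `chi_path` for `z = (a, d + 1)` and `z' = (a + 1, m)`; add the indicator
of `U = {(a + 1, b) | m < b}` to `g`; the new `g` changes exactly along the edges between `U` and
the strip. -/
theorem right_same {B : Set V} (hB : IsAnimal B) {a c d : ℤ} (h : IsStrip B a c d) {u v s t : V}
    (huv : Conn (B \ seg a c d) u v) (hs : s ∈ seg a c d) (ht : t ∈ seg a c d)
    (hus : Adj u s) (hvt : Adj v t) (hu : u.1 = a + 1) (hv : v.1 = a + 1) {m : ℤ} (h1 : u.2 < m)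
    (h2 : m < v.2) : (a + 1, m) ∈ B := by
  by_contra hm
  obtain ⟨g, hg⟩ := chi_path (B := B) (hB.coconn (a, d + 1) h.up (a + 1, m) hm)
  have hs' : s.1 = a ∧ c ≤ s.2 ∧ s.2 ≤ d := hs
  have ht' : t.1 = a ∧ c ≤ t.2 ∧ t.2 ≤ d := ht
  have hcm : c ≤ m := by
    have h3 := Sides_col hus
    omega
  have hmd : m < d := by
    have h3 := Sides_col hvt
    omega
  have key : ∀ x ∈ B, ∀ y ∈ B, Adj x y →
      (g x + (if x.1 = a + 1 ∧ m < x.2 then 1 else 0) =
        g y + (if y.1 = a + 1 ∧ m < y.2 then 1 else 0) ↔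
      ¬ ((x.1 = a ∧ c ≤ x.2 ∧ x.2 ≤ d) ∧ (y.1 = a + 1 ∧ m < y.2) ∨
        (y.1 = a ∧ c ≤ y.2 ∧ y.2 ≤ d) ∧ (x.1 = a + 1 ∧ m < x.2))) := by
    intro x hx y hy hxy
    have h3 := Sides_off h.up hx
    have h4 := Sides_off h.up hy
    have h5 := Sides_off hm hx
    have h6 := Sides_off hm hy
    rw [Sides_add, Sides_eq (hg x hx y hy hxy)]
    rcases Sides_col hxy with h7 | h7 | h7
    · refine iff_of_true (iff_of_true (iff_of_false (Sides_crs0 h7.1) (Sides_crs0 h7.1)) ?_) ?_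
      · omega
      · omega
    · rw [Sides_crs1 h7.1, Sides_crs1 h7.1]
      exact Sides_right hcm hmd h7.1 h7.2 h3 h6
    · rw [or_comm (a := Crs (a, d + 1) x y), or_comm (a := Crs (a + 1, m) x y), Sides_crs1 h7.1,
        Sides_crs1 h7.1]
      exact Sides_swap (Sides_right hcm hmd h7.1 h7.2 h4 h5)
  refine no_cycle (isConn_seg a c d) h.sub
    (fun x => g x + (if x.1 = a + 1 ∧ m < x.2 then 1 else 0))
    (U := {w | w.1 = a + 1 ∧ m < w.2}) ?_ ?_ ?_ huv ?_ ⟨hv, h2⟩ hs ht hus hvt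
  · intro x hx y hy hxy hxS
    by_cases h3 : g x + (if x.1 = a + 1 ∧ m < x.2 then 1 else 0) =
        g y + (if y.1 = a + 1 ∧ m < y.2 then 1 else 0)
    · left
      rw [h3]
      exact CharTwo.add_self_eq_zero _
    · right
      have h4 := mt (key x hx y hy hxy).2 h3
      rw [not_not] at h4
      rcases h4 with h4 | h4
      · exact absurd h4.1 hxS
      · exact ⟨h4.2, h4.1⟩
  · intro x hx y hy hxy
    refine (key x (h.sub hx) y (h.sub hy) hxy).2 ?_
    have h3 : x.1 = a := hx.1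
    have h4 : y.1 = a := hy.1
    omega
  · intro x hx hxU y hy hxy h3
    exact (key x hx y (h.sub hy) hxy).1 h3 (Or.inr ⟨hy, hxU⟩)
  · intro h3
    have h4 : m < u.2 := h3.2
    omega

/-- Both on the left side: `chi_path` for `z = (a, d + 1)` and `z' = (a - 1, m)`; add the indicator
of
`W = {(a, b) | d + 1 < b}` to `g`; the new `g` changes exactly along the edges between
`U = {(a - 1, b) | m < b}` and the strip. -/
theorem left_same {B : Set V} (hB : IsAnimal B) {a c d : ℤ} (h : IsStrip B a c d) {u v s t : V}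
    (huv : Conn (B \ seg a c d) u v) (hs : s ∈ seg a c d) (ht : t ∈ seg a c d)
    (hus : Adj u s) (hvt : Adj v t) (hu : u.1 = a - 1) (hv : v.1 = a - 1) {m : ℤ} (h1 : u.2 < m)
    (h2 : m < v.2) : (a - 1, m) ∈ B := by
  by_contra hm
  obtain ⟨g, hg⟩ := chi_path (B := B) (hB.coconn (a, d + 1) h.up (a - 1, m) hm)
  have hs' : s.1 = a ∧ c ≤ s.2 ∧ s.2 ≤ d := hs
  have ht' : t.1 = a ∧ c ≤ t.2 ∧ t.2 ≤ d := ht
  have hcm : c < m := by
    have h3 := Sides_col hus
    omega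
  have hmd : m ≤ d := by
    have h3 := Sides_col hvt
    omega
  have key : ∀ x ∈ B, ∀ y ∈ B, Adj x y →
      (g x + (if x.1 = a ∧ d + 1 < x.2 then 1 else 0) =
        g y + (if y.1 = a ∧ d + 1 < y.2 then 1 else 0) ↔
      ¬ ((x.1 = a ∧ c ≤ x.2 ∧ x.2 ≤ d) ∧ (y.1 = a - 1 ∧ m < y.2) ∨
        (y.1 = a ∧ c ≤ y.2 ∧ y.2 ≤ d) ∧ (x.1 = a - 1 ∧ m < x.2))) := by
    intro x hx y hy hxy
    have h3 := Sides_off h.up hx
    have h4 := Sides_off h.up hy
    have h5 := Sides_off hm hx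
    have h6 := Sides_off hm hy
    rw [Sides_add, Sides_eq (hg x hx y hy hxy)]
    rcases Sides_col hxy with h7 | h7 | h7
    · refine iff_of_true (iff_of_true (iff_of_false (Sides_crs0 h7.1) (Sides_crs0 h7.1)) ?_) ?_
      · omega
      · omega
    · rw [Sides_crs1 h7.1, Sides_crs1 h7.1]
      exact Sides_left hcm hmd h7.1 h7.2 h5 h4
    · rw [or_comm (a := Crs (a, d + 1) x y), or_comm (a := Crs (a - 1, m) x y), Sides_crs1 h7.1,
        Sides_crs1 h7.1]
      exact Sides_swap (Sides_left hcm hmd h7.1 h7.2 h6 h3)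
  refine no_cycle (isConn_seg a c d) h.sub
    (fun x => g x + (if x.1 = a ∧ d + 1 < x.2 then 1 else 0))
    (U := {w | w.1 = a - 1 ∧ m < w.2}) ?_ ?_ ?_ huv ?_ ⟨hv, h2⟩ hs ht hus hvt
  · intro x hx y hy hxy hxS
    by_cases h3 : g x + (if x.1 = a ∧ d + 1 < x.2 then 1 else 0) =
        g y + (if y.1 = a ∧ d + 1 < y.2 then 1 else 0)
    · left
      rw [h3]
      exact CharTwo.add_self_eq_zero _
    · right
      have h4 := mt (key x hx y hy hxy).2 h3
      rw [not_not] at h4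
      rcases h4 with h4 | h4
      · exact absurd h4.1 hxS
      · exact ⟨h4.2, h4.1⟩
  · intro x hx y hy hxy
    refine (key x (h.sub hx) y (h.sub hy) hxy).2 ?_
    have h3 : x.1 = a := hx.1
    have h4 : y.1 = a := hy.1
    omega
  · intro x hx hxU y hy hxy h3
    exact (key x hx y (h.sub hy) hxy).1 h3 (Or.inr ⟨hy, hxU⟩)
  · intro h3
    have h4 : m < u.2 := h3.2
    omega

end Pool.Agent.TameB
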