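import Pool.Agent.TameB.Chi

/-!
# TAMEB: strips
-/

set_option autoImplicit false

namespace Pool.Agent.TameB

open Set Topology Filter Pool.Agent.TriPerc

private theorem Strip_eq_of_add {a b : ZMod 2} (h : a + b = 0) : a = b := by
  revert a b
  decide

private theorem Strip_const {S : Set V} (g : V → ZMod 2) {u v : V} (h : Conn S u v)
    (hg : ∀ x ∈ S, ∀ y ∈ S, Adj x y → g x = g y) : g u = g v := by
  obtain ⟨n, f, h0, hn, ha, hS⟩ := h.walk
  have key : ∀ i ≤ n, g (f 0) = g (f i) := by
    intro i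
    induction i with
    | zero => exact fun _ => rfl
    | succ i ih =>
      intro hi
      rw [ih (by omega)]
      exact hg _ (hS i (by omega)) _ (hS (i + 1) hi) (ha i (by omega))
  rw [← h0, ← hn]
  exact key n le_rfl

/-- If `h` is a function on `B` which changes exactly along the edges between `S` and `U`, then
it is constant along paths in `B \ S` and in `S`; so it is impossible that `u, v ∈ B \ S` are joined
in `B \ S`, both adjacent to points of the connected set `S`, the first one not in `U`, the second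
one in `U`. -/
theorem no_cycle {B S U : Set V} (hS : IsConn S) (hSB : S ⊆ B) (g : V → ZMod 2)
    (hg : ∀ x ∈ B, ∀ y ∈ B, Adj x y → x ∉ S → g x + g y = 0 ∨ (x ∈ U ∧ y ∈ S))
    (hg' : ∀ x ∈ S, ∀ y ∈ S, Adj x y → g x = g y)
    (hgU : ∀ x ∈ B, x ∈ U → ∀ y ∈ S, Adj x y → g x ≠ g y)
    {u v : V} (huv : Conn (B \ S) u v) (hu : u ∉ U) (hv : v ∈ U)
    {s t : V} (hs : s ∈ S) (ht : t ∈ S) (hus : Adj u s) (hvt : Adj v t) : False := by
  have h1 : g u = g v := by
    refine Strip_const g huv fun x hx y hy hxy => ?_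
    rcases hg x hx.1 y hy.1 hxy hx.2 with h | h
    · exact Strip_eq_of_add h
    · exact absurd h.2 hy.2
  have h2 : g s = g t := Strip_const g (hS s hs t ht) hg'
  have h3 : g u = g s := by
    rcases hg u huv.left.1 s (hSB hs) hus huv.left.2 with h | h
    · exact Strip_eq_of_add h
    · exact absurd h.1 hu
  exact hgU v huv.right.1 hv t ht hvt (by rw [← h1, h3, h2])

theorem isConn_seg (a c d : ℤ) : IsConn (seg a c d) := by
  rintro ⟨u1, u2⟩ ⟨hu1, hu2, hu3⟩ ⟨v1, v2⟩ ⟨hv1, hv2, hv3⟩
  simp only at hu1 hu2 hu3 hv1 hv2 hv3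
  subst hu1 hv1
  refine conn_col fun e he1 he2 => ⟨rfl, ?_, ?_⟩
  · change c ≤ e
    exact (le_min hu2 hv2).trans he1
  · change e ≤ d
    exact he2.trans (max_le hu3 hv3)

/-- The strip of a vertex.  PROOF: `B` is finite. -/
theorem exists_strip {B : Set V} (hB : B.Finite) {v : V} (hv : v ∈ B) :
    ∃ c d, IsStrip B v.1 c d ∧ v ∈ seg v.1 c d := by
  classical
  have up : ∃ k : ℕ, (v.1, v.2 + k + 1) ∉ B := by
    by_contra hcon
    push Not at hcon
    refine Set.infinite_of_injective_forall_mem (f := fun k : ℕ => (v.1, v.2 + (k : ℤ) + 1))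
      ?_ hcon hB
    intro i j hij
    have := (Prod.ext_iff.1 hij).2
    simp only at this
    omega
  have down : ∃ k : ℕ, (v.1, v.2 - k - 1) ∉ B := by
    by_contra hcon
    push Not at hcon
    refine Set.infinite_of_injective_forall_mem (f := fun k : ℕ => (v.1, v.2 - (k : ℤ) - 1))
      ?_ hcon hB
    intro i j hij
    have := (Prod.ext_iff.1 hij).2
    simp only at this
    omega
  have hk := Nat.find_spec up
  have hk' := fun j (hj : j < Nat.find up) => Nat.find_min up hj
  have hl := Nat.find_spec down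
  have hl' := fun j (hj : j < Nat.find down) => Nat.find_min down hj
  generalize Nat.find up = k at hk hk'
  generalize Nat.find down = l at hl hl'
  refine ⟨v.2 - l, v.2 + k, ⟨by omega, ?_, hk, hl⟩, rfl, by omega, by omega⟩
  rintro ⟨w1, w2⟩ ⟨h1, h2, h3⟩
  simp only at h1 h2 h3
  subst h1
  rcases lt_trichotomy w2 v.2 with h | h | h
  · have h4 := hl' (v.2 - w2 - 1).toNat (by omega)
    rw [not_not] at h4
    have h5 : v.2 - ((v.2 - w2 - 1).toNat : ℤ) - 1 = w2 := by omega
    rwa [h5] at h4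
  · rw [h]
    exact hv
  · have h4 := hk' (w2 - v.2 - 1).toNat (by omega)
    rw [not_not] at h4
    have h5 : v.2 + ((w2 - v.2 - 1).toNat : ℤ) + 1 = w2 := by omega
    rwa [h5] at h4

/-- Two strips with a common vertex are equal. -/
theorem IsStrip.unique {B : Set V} {a c d a' c' d' : ℤ} (h : IsStrip B a c d)
    (h' : IsStrip B a' c' d') {v : V} (hv : v ∈ seg a c d) (hv' : v ∈ seg a' c' d') :
    a = a' ∧ c = c' ∧ d = d' := by
  obtain ⟨h1, h2, h3⟩ := hv
  obtain ⟨k1, k2, k3⟩ := hv'
  have ha : a = a' := h1.symm.trans k1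
  subst ha
  refine ⟨rfl, ?_, ?_⟩
  · rcases lt_trichotomy c c' with hc | hc | hc
    · refine absurd (h.sub ?_) h'.down
      exact ⟨rfl, by change c ≤ c' - 1; omega, by change c' - 1 ≤ d; omega⟩
    · exact hc
    · refine absurd (h'.sub ?_) h.down
      exact ⟨rfl, by change c' ≤ c - 1; omega, by change c - 1 ≤ d'; omega⟩
  · rcases lt_trichotomy d d' with hc | hc | hc
    · refine absurd (h'.sub ?_) h.up
      exact ⟨rfl, by change c' ≤ d + 1; omega, by change d + 1 ≤ d'; omega⟩
    · exact hc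
    · refine absurd (h.sub ?_) h'.up
      exact ⟨rfl, by change c ≤ d' + 1; omega, by change d' + 1 ≤ d; omega⟩

/-- A vertex of `B` off the strip but adjacent to it is in a neighbouring column. -/
theorem IsStrip.adj_col {B : Set V} {a c d : ℤ} (h : IsStrip B a c d) {u s : V} (hu : u ∈ B)
    (hus : u ∉ seg a c d) (hs : s ∈ seg a c d) (ha : Adj u s) : u.1 = a + 1 ∨ u.1 = a - 1 := by
  obtain ⟨h1, h2, h3⟩ := hs
  by_contra hcon
  push Not at hcon
  have h4 : u.1 = a := by
    unfold Adj at ha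
    omega
  have h5 : s.2 = u.2 + 1 ∨ s.2 = u.2 - 1 := by
    unfold Adj at ha
    omega
  have h6 : ¬ (c ≤ u.2 ∧ u.2 ≤ d) := fun h6 => hus ⟨h4, h6.1, h6.2⟩
  have hu' : (a, u.2) ∈ B := by
    rw [← h4]
    exact hu
  rcases h5 with h5 | h5
  · have h7 : u.2 = c - 1 := by omega
    rw [h7] at hu'
    exact h.down hu'
  · have h7 : u.2 = d + 1 := by omega
    rw [h7] at hu'
    exact h.up hu'

end Pool.Agent.TameB
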