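import Pool.Agent.TameB.Bump
import Pool.Agent.RAY.Fib

/-!
# TAMEB: fibred homeomorphisms of the plane
-/

set_option autoImplicit false

namespace Pool.Agent.TameB

open Set Topology Filter

private theorem surj_vert {a c : ℝ} {P : ℝ → ℝ} (hP : IsBump a c P) (t : ℝ) :
    Function.Surjective fun y : ℝ => y + t * (P y - y) := by
  intro y
  have hc : Continuous fun y : ℝ => y + t * (P y - y) := by
    have := hP.cont
    fun_prop
  have e1 : (min a y) + t * (P (min a y) - (min a y)) = min a y := by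
    rw [hP.low _ (min_le_left _ _)]
    ring
  have e2 : (max c y) + t * (P (max c y) - (max c y)) = max c y := by
    rw [hP.high _ (le_max_left _ _)]
    ring
  obtain ⟨z, -, hz⟩ := intermediate_value_Icc
    ((min_le_right a y).trans (le_max_right c y)) hc.continuousOn
    (show y ∈ Icc _ _ from ⟨by simp only [e1]; exact min_le_right _ _,
      by simp only [e2]; exact le_max_right _ _⟩)
  exact ⟨z, hz⟩

private theorem mono_vert {a c : ℝ} {P : ℝ → ℝ} (hP : IsBump a c P) {t : ℝ} (h0 : 0 ≤ t)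
    (h1 : t ≤ 1) : StrictMono fun y : ℝ => y + t * (P y - y) := by
  intro y z hyz
  have hPm := hP.mono hyz
  have e1 : y + t * (P y - y) = (1 - t) * y + t * P y := by ring
  have e2 : z + t * (P z - z) = (1 - t) * z + t * P z := by ring
  show y + t * (P y - y) < z + t * (P z - z)
  rw [e1, e2]
  rcases h0.eq_or_lt with h | h
  · rw [← h]
    simpa using hyz
  · have k1 : (1 - t) * y ≤ (1 - t) * z := mul_le_mul_of_nonneg_left hyz.le (by linarith)
    have k2 : t * P y < t * P z := mul_lt_mul_of_pos_left hPm h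
    linarith

/-- Vertical homeomorphism.  PROOF: `Pool.Agent.RAY.exists_fib_inverse` with
`V x y = y + τ x * (P y - y) = (1 - τ x) * y + τ x * P y`, increasing in `y`; surjective since it
is continuous and equal to `y` off `[a, c]` (`Pool.Agent.RAY.surjective_of_bound`). -/
theorem exists_vert {a c : ℝ} {P τ : ℝ → ℝ} (hP : IsBump a c P) (hτ : Continuous τ)
    (h0 : ∀ x, 0 ≤ τ x) (h1 : ∀ x, τ x ≤ 1) :
    ∃ f : Pt ≃ₜ Pt, ∀ z : Pt, f z = (z.1, z.2 + τ z.1 * (P z.2 - z.2)) := by
  have hPc := hP.cont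
  obtain ⟨W, hWc, hVW, hWV, -⟩ := Pool.Agent.RAY.exists_fib_inverse
    (fun x y : ℝ => y + τ x * (P y - y)) (by fun_prop)
    (fun x => mono_vert hP (h0 x) (h1 x)) (fun x => surj_vert hP (τ x))
  refine ⟨{ toFun := fun z => (z.1, z.2 + τ z.1 * (P z.2 - z.2))
            invFun := fun z => (z.1, W z.1 z.2)
            left_inv := fun z => ?_
            right_inv := fun z => ?_
            continuous_toFun := by fun_prop
            continuous_invFun := by fun_prop }, fun z => rfl⟩
  · exact Prod.ext rfl (hWV z.1 z.2)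
  · exact Prod.ext rfl (hVW z.1 z.2)

/-- Horizontal homeomorphism. PROOF: conjugate `exists_vert` with the swap. -/
theorem exists_horz {a c : ℝ} {P τ : ℝ → ℝ} (hP : IsBump a c P) (hτ : Continuous τ)
    (h0 : ∀ x, 0 ≤ τ x) (h1 : ∀ x, τ x ≤ 1) :
    ∃ f : Pt ≃ₜ Pt, ∀ z : Pt, f z = (z.1 + τ z.2 * (P z.1 - z.1), z.2) := by
  obtain ⟨f, hf⟩ := exists_vert hP hτ h0 h1
  refine ⟨((Homeomorph.prodComm ℝ ℝ).trans f).trans (Homeomorph.prodComm ℝ ℝ), fun z => ?_⟩
  simp [hf]

end Pool.Agent.TameB
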